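import Mathlib

/-!
# From the projective line to projective spaces (project PN, helper546)

Definitions and statements of the parts.
-/

set_option autoImplicit false
set_option linter.all false

namespace Pool.Agent.N546.PN

open Finset Filter Topology

/-- The exponents of the monomials of degree `D` in `n + 1` variables. -/
abbrev Mon (n D : ℕ) : Type :=
  {m : Fin (n + 1) → ℕ // m ∈ Finset.piAntidiag (Finset.univ : Finset (Fin (n + 1))) D}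

/-- The value at `x` of the form with the coefficients `c`. -/
def val {n D : ℕ} {K : Type} [CommRing K] (c : Mon n D → K) (x : Fin (n + 1) → K) : K :=
  ∑ m : Mon n D, c m * ∏ i, x i ^ (m.1 i)

/-- The value at `x` of the partial derivative with respect to the variable `a`. -/
def dval {n D : ℕ} {K : Type} [CommRing K] (c : Mon n D → K) (a : Fin (n + 1))
    (x : Fin (n + 1) → K) : K :=
  ∑ m : Mon n D, c m * ((m.1 a : ℕ) : K) * ∏ i, x i ^ (m.1 i - if i = a then 1 else 0)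

/-- The families of integral coefficients as families over `K`. -/
def ic {ι : Type} {n : ℕ} {e : ι → ℕ} (c : (k : ι) → Mon n (e k + 1) → ℤ) (K : Type) [CommRing K] :
    (k : ι) → Mon n (e k + 1) → K := fun k m => (c k m : K)

/-- The families of forms in `n + 1` variables of degrees `e k + 1` with integral coefficients of
absolute value at most `H`. -/
noncomputable def bx {ι : Type} [Fintype ι] [DecidableEq ι] (n : ℕ) (e : ι → ℕ) (H : ℕ) :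
    Finset ((k : ι) → Mon n (e k + 1) → ℤ) :=
  Fintype.piFinset (fun _ => Fintype.piFinset (fun _ => Icc (-(H : ℤ)) H))

/-- The number of coefficients. -/
def sz {ι : Type} [Fintype ι] (n : ℕ) (e : ι → ℕ) : ℕ := ∑ k, Fintype.card (Mon n (e k + 1))

/-- A type of conditions on the values of the forms. -/
structure Typ (ι : Type) (e : ι → ℕ) where
  /-- the condition -/
  S : (K : Type) → [Field K] → (ι → K) → Prop
  sq : ∀ (K : Type) [Field K] (a z : ι → K), (∀ k, z k ≠ 0) → S K a → S K (fun k => a k * z k ^ 2)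
  sc : ∀ (K : Type) [Field K] (a : ι → K) (t : K), t ≠ 0 → S K a →
    S K (fun k => t ^ (e k + 1) * a k)
  un : ∀ (p : ℕ) [Fact p.Prime], p ≠ 2 → ∀ a : ι → ℚ_[p], (∀ k, ‖a k‖ = 1) → S ℚ_[p] a

/-- The base point `x` is a good one: no form vanishes and the values satisfy the condition. -/
def Pt {ι : Type} {n : ℕ} {e : ι → ℕ} (T : Typ ι e) {K : Type} [Field K]
    (c : (k : ι) → Mon n (e k + 1) → K) (x : Fin (n + 1) → K) : Prop :=
  (∀ k, val (c k) x ≠ 0) ∧ T.S K (fun k => val (c k) x)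

/-- Points over the real numbers and over all `ℚ_p`. -/
def LocN {ι : Type} {n : ℕ} {e : ι → ℕ} (T : Typ ι e) (c : (k : ι) → Mon n (e k + 1) → ℤ) : Prop :=
  (∃ x : Fin (n + 1) → ℝ, Pt T (ic c ℝ) x) ∧
    ∀ (p : ℕ) [Fact p.Prime], ∃ x : Fin (n + 1) → ℚ_[p], Pt T (ic c ℚ_[p]) x

/-- A rational point. -/
def GlobN {ι : Type} {n : ℕ} {e : ι → ℕ} (T : Typ ι e) (c : (k : ι) → Mon n (e k + 1) → ℤ) : Prop :=
  ∃ x : Fin (n + 1) → ℚ, Pt T (ic c ℚ) x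

/-! ### Binary forms -/

/-- The value of the binary form `∑ c_j x^(e + 1 - j) y^j`. -/
def bval {e : ℕ} {K : Type} [CommRing K] (c : Fin (e + 2) → ℤ) (x y : K) : K :=
  ∑ j : Fin (e + 2), (c j : K) * x ^ (e + 1 - (j : ℕ)) * y ^ (j : ℕ)

/-- The families of binary forms. -/
noncomputable def bx1 {ι : Type} [Fintype ι] [DecidableEq ι] (e : ι → ℕ) (H : ℕ) :
    Finset ((k : ι) → Fin (e k + 2) → ℤ) :=
  Fintype.piFinset (fun k => Fintype.piFinset (fun _ => Icc (-(H : ℤ)) H))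

/-- The number of coefficients of the binary forms. -/
def sz1 {ι : Type} [Fintype ι] (e : ι → ℕ) : ℕ := ∑ k, (e k + 2)

/-- A good base point for binary forms. -/
def Pt1 {ι : Type} {e : ι → ℕ} (T : Typ ι e) (c : (k : ι) → Fin (e k + 2) → ℤ) {K : Type} [Field K]
    (x y : K) : Prop :=
  (∀ k, bval (c k) x y ≠ 0) ∧ T.S K (fun k => bval (c k) x y)

/-- Points everywhere locally, binary forms. -/
def Loc1 {ι : Type} {e : ι → ℕ} (T : Typ ι e) (c : (k : ι) → Fin (e k + 2) → ℤ) : Prop :=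
  (∃ z : ℝ, Pt1 T c (1 : ℝ) z) ∧ ∀ (p : ℕ) [Fact p.Prime], ∃ x y : ℚ_[p], Pt1 T c x y

/-- A rational point, binary forms. -/
def Glob1 {ι : Type} {e : ι → ℕ} (T : Typ ι e) (c : (k : ι) → Fin (e k + 2) → ℤ) : Prop :=
  ∃ x y : ℚ, Pt1 T c x y

open Classical in
/-- The Hasse principle for almost all families of binary forms. -/
def HP1 {ι : Type} [Fintype ι] [DecidableEq ι] {e : ι → ℕ} (T : Typ ι e) : Prop :=
  ∀ η : ℝ, 0 < η → ∃ H₀ : ℕ, ∀ H : ℕ, H₀ ≤ H →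
    (((bx1 e H).filter (fun c => Loc1 T c ∧ ¬ Glob1 T c)).card : ℝ) ≤
      η * ((2 * H + 1 : ℕ) : ℝ) ^ sz1 e

open Classical in
/-- A positive proportion of the families of binary forms has points everywhere locally. -/
def PP1 {ι : Type} [Fintype ι] [DecidableEq ι] {e : ι → ℕ} (T : Typ ι e) : Prop :=
  ∃ c₀ : ℝ, 0 < c₀ ∧ ∃ H₀ : ℕ, ∀ H : ℕ, H₀ ≤ H →
    c₀ * ((2 * H + 1 : ℕ) : ℝ) ^ sz1 e ≤ (((bx1 e H).filter (fun c => Loc1 T c)).card : ℝ)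

open Classical in
/-- The Hasse principle for almost all families of forms in `n + 1` variables. -/
def HPN {ι : Type} [Fintype ι] [DecidableEq ι] {e : ι → ℕ} (T : Typ ι e) (n : ℕ) : Prop :=
  ∀ η : ℝ, 0 < η → ∃ H₀ : ℕ, ∀ H : ℕ, H₀ ≤ H →
    (((bx n e H).filter (fun c => LocN T c ∧ ¬ GlobN T c)).card : ℝ) ≤
      η * ((2 * H + 1 : ℕ) : ℝ) ^ sz n e

open Classical in
/-- A positive proportion has points everywhere locally. -/
def PPN {ι : Type} [Fintype ι] [DecidableEq ι] {e : ι → ℕ} (T : Typ ι e) (n : ℕ) : Prop :=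
  ∃ c₀ : ℝ, 0 < c₀ ∧ ∃ H₀ : ℕ, ∀ H : ℕ, H₀ ≤ H →
    c₀ * ((2 * H + 1 : ℕ) : ℝ) ^ sz n e ≤ (((bx n e H).filter (fun c => LocN T c)).card : ℝ)

/-! ### Singular families -/

/-- The family `c` over the field `K` is smooth: at every point the gradients of the forms which
vanish there are linearly independent. -/
def Smo {ι : Type} [Fintype ι] {n : ℕ} {e : ι → ℕ} {K : Type} [Field K]
    (c : (k : ι) → Mon n (e k + 1) → K) : Prop :=
  ∀ (x : Fin (n + 1) → K) (l : ι → K), x ≠ 0 → l ≠ 0 → (∀ k, l k ≠ 0 → val (c k) x = 0) →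
    ∃ a, ∑ k, l k * dval (c k) a x ≠ 0

/-- Part DEL: a polynomial which vanishes at all singular families. -/
def S_DEL : Prop := ∀ (n : ℕ) (ι : Type) [Fintype ι] [DecidableEq ι] (e : ι → ℕ),
  ∃ Δ : MvPolynomial ((k : ι) × Mon n (e k + 1)) ℤ, Δ ≠ 0 ∧
    ∀ (K : Type) [Field K] [CharZero K] (c : (k : ι) → Mon n (e k + 1) → K), ¬ Smo c →
      MvPolynomial.aeval (fun q : (k : ι) × Mon n (e k + 1) => c q.1 q.2) Δ = 0

open Classical in
/-- Part SMR: a polynomial is rarely small over the real numbers. -/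
def S_SMR : Prop := ∀ (σ : Type) [Fintype σ] [DecidableEq σ] (Q : MvPolynomial σ ℤ), Q ≠ 0 →
  ∀ ε : ℝ, 0 < ε → ∃ η : ℝ, 0 < η ∧ ∃ H₀ : ℕ, ∀ H : ℕ, H₀ ≤ H →
    (((Fintype.piFinset (fun _ : σ => Icc (-(H : ℤ)) H)).filter
      (fun c => |MvPolynomial.aeval (fun i => (c i : ℝ) / H) Q| < η)).card : ℝ) ≤
      ε * ((2 * H + 1 : ℕ) : ℝ) ^ Fintype.card σ

open Classical in
/-- Part SMP: the values of a polynomial are rarely divisible by a high power of `p`. -/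
def S_SMP : Prop := ∀ (σ : Type) [Fintype σ] [DecidableEq σ] (Q : MvPolynomial σ ℤ), Q ≠ 0 →
  ∀ (p : ℕ), p.Prime → ∀ ε : ℝ, 0 < ε → ∃ N : ℕ, ∃ H₀ : ℕ, ∀ H : ℕ, H₀ ≤ H →
    (((Fintype.piFinset (fun _ : σ => Icc (-(H : ℤ)) H)).filter
      (fun c => (p : ℤ) ^ N ∣ MvPolynomial.eval c Q)).card : ℝ) ≤
      ε * ((2 * H + 1 : ℕ) : ℝ) ^ Fintype.card σ

/-! ### Local analysis -/

/-- Part SQO: the nonzero squares are open. -/
def S_SQO (K : Type) [NontriviallyNormedField K] : Prop :=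
  ∀ a : K, a ≠ 0 → ∃ δ : ℝ, 0 < δ ∧ ∀ a' : K, ‖a' - a‖ < δ → ∃ z : K, z ≠ 0 ∧ a' = a * z ^ 2

/-- Part OPN: where the gradients of the forms in `I` are linearly independent, the values of these
forms can be changed arbitrarily. -/
def S_OPN (K : Type) [NontriviallyNormedField K] : Prop :=
  ∀ (n : ℕ) (ι : Type) [Fintype ι] [DecidableEq ι] (e : ι → ℕ) (c : (k : ι) → Mon n (e k + 1) → K)
    (x : Fin (n + 1) → K) (I : Finset ι),
    (∀ l : ι → K, l ≠ 0 → (∀ k, l k ≠ 0 → k ∈ I) → ∃ a, ∑ k, l k * dval (c k) a x ≠ 0) →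
    ∀ V ∈ 𝓝 x, ∃ δ : ℝ, 0 < δ ∧ ∀ w : ι → K, (∀ k ∈ I, ‖w k - val (c k) x‖ < δ) →
      ∃ x' ∈ V, ∀ k ∈ I, val (c k) x' = w k

/-- Part OPE: good points stay good points. -/
def S_OPE (K : Type) [NontriviallyNormedField K] : Prop :=
  ∀ (n : ℕ) (ι : Type) [Fintype ι] [DecidableEq ι] (e : ι → ℕ) (T : Typ ι e)
    (c : (k : ι) → Mon n (e k + 1) → K) (x : Fin (n + 1) → K), Pt T c x →
    ∃ δ : ℝ, 0 < δ ∧ ∀ (c' : (k : ι) → Mon n (e k + 1) → K) (x' : Fin (n + 1) → K),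
      (∀ k m, ‖c' k m - c k m‖ < δ) → (∀ i, ‖x' i - x i‖ < δ) → Pt T c' x'

/-- Part CLO: a smooth limit of families with good points has good points. -/
def S_CLO (K : Type) [NontriviallyNormedField K] : Prop :=
  ∀ (n : ℕ) (ι : Type) [Fintype ι] [DecidableEq ι] (e : ι → ℕ) (T : Typ ι e)
    (c : ℕ → (k : ι) → Mon n (e k + 1) → K) (c₀ : (k : ι) → Mon n (e k + 1) → K),
    Tendsto c atTop (𝓝 c₀) → (∀ j, ∃ x, Pt T (c j) x) → Smo c₀ → ∃ x, Pt T c₀ x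

open Classical in
/-- Part REALN: for most of the families with real points all the points of one of finitely many
boxes are good. -/
def S_REALN : Prop := ∀ (n : ℕ) (ι : Type) [Fintype ι] [DecidableEq ι] (e : ι → ℕ) (T : Typ ι e)
  (ε : ℝ), 0 < ε → ∃ (R : ℕ) (xs : Fin R → Fin (n + 1) → ℝ) (δ : ℝ), 0 < δ ∧ ∃ H₀ : ℕ, ∀ H : ℕ,
    H₀ ≤ H → (((bx n e H).filter (fun c => (∃ x : Fin (n + 1) → ℝ, Pt T (ic c ℝ) x) ∧
      ¬ ∃ j : Fin R, ∀ x' : Fin (n + 1) → ℝ, (∀ i, |x' i - xs j i| < δ) → Pt T (ic c ℝ) x')).card : ℝ)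
      ≤ ε * ((2 * H + 1 : ℕ) : ℝ) ^ sz n e

/-- The family `c` has a good `p`-adic point near which everything modulo `p ^ N` is good. -/
def Stab {ι : Type} {n : ℕ} {e : ι → ℕ} (T : Typ ι e) (p : ℕ) [Fact p.Prime] (N : ℕ)
    (c : (k : ι) → Mon n (e k + 1) → ℤ) (a : Fin (n + 1) → ℤ) : Prop :=
  ∀ (c' : (k : ι) → Mon n (e k + 1) → ℤ) (a' : Fin (n + 1) → ℤ),
    (∀ k m, (p : ℤ) ^ N ∣ c' k m - c k m) → (∀ i, (p : ℤ) ^ N ∣ a' i - a i) →
      Pt T (ic c' ℚ_[p]) (fun i => ((a' i : ℤ) : ℚ_[p]))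

open Classical in
/-- Part PADN: for most of the families with `p`-adic points there is a stable one. -/
def S_PADN : Prop := ∀ (n : ℕ) (ι : Type) [Fintype ι] [DecidableEq ι] (e : ι → ℕ) (T : Typ ι e)
  (p : ℕ) [Fact p.Prime] (ε : ℝ), 0 < ε → ∃ N H₀ : ℕ, ∀ H : ℕ,
    H₀ ≤ H → (((bx n e H).filter (fun c => (∃ x : Fin (n + 1) → ℚ_[p], Pt T (ic c ℚ_[p]) x) ∧
      ¬ ∃ a : Fin (n + 1) → ℤ, Stab T p N c a)).card : ℝ) ≤ ε * ((2 * H + 1 : ℕ) : ℝ) ^ sz n e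

/-! ### Lines -/

/-- The restriction of a form to the line through `b` and the point `i₁` of the coordinate simplex. -/
def line {n e : ℕ} (b : Fin (n + 1) → ℤ) (i₁ : Fin (n + 1)) (c : Mon n (e + 1) → ℤ) :
    Fin (e + 2) → ℤ := fun j => ∑ m : Mon n (e + 1),
  c m * (((m.1 i₁).choose j : ℤ) * ∏ i, b i ^ (m.1 i - if i = i₁ then (j : ℕ) else 0))

/-- Part LIN: the values on the line. -/
def S_LIN : Prop := ∀ (n e : ℕ) (b : Fin (n + 1) → ℤ) (i₁ : Fin (n + 1)) (c : Mon n (e + 1) → ℤ)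
  (K : Type) [Field K] (x y : K),
  bval (line b i₁ c) x y = val (fun m => (c m : K)) (fun i => x * (b i : K) + if i = i₁ then y else 0)

open Classical in
/-- Part PUSH: the restrictions to a line are spread evenly enough. -/
def S_PUSH : Prop := ∀ (n : ℕ) (ι : Type) [Fintype ι] [DecidableEq ι] (e : ι → ℕ)
  (b : Fin (n + 1) → ℤ) (i₀ i₁ : Fin (n + 1)), i₀ ≠ i₁ → b i₀ ≠ 0 → ∃ C : ℕ, 1 ≤ C ∧ ∀ H : ℕ,
    ∀ Q : ((k : ι) → Fin (e k + 2) → ℤ) → Prop,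
    (((bx n e H).filter (fun c => Q (fun k => line b i₁ (c k)))).card) * (2 * H + 1) ^ sz1 e ≤
      (2 * H + 1) ^ sz n e * (((bx1 e (C * H)).filter Q).card)

open Classical in
/-- Part TAIL: on a line, few families in a residue class modulo `M` vanish modulo a prime not
dividing `M`. -/
def S_TAIL : Prop := ∀ (n : ℕ) (ι : Type) [Fintype ι] [DecidableEq ι] (e : ι → ℕ),
  ∃ C : ℝ, 0 ≤ C ∧ ∀ P M : ℕ, 1 ≤ P → 1 ≤ M → (∀ p : ℕ, p.Prime → p ≤ P → p ∣ M) →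
  ∀ (b : Fin (n + 1) → ℤ) (i₀ i₁ i₂ : Fin (n + 1)), i₀ ≠ i₁ → i₂ ≠ i₁ → b i₀ ≠ 0 → b i₂ ≠ 0 →
    (∀ p : ℕ, p.Prime → (p : ℤ) ∣ b i₀ → (p : ℤ) ∣ b i₂ → p ∣ M) →
  ∀ γ : (k : ι) → Mon n (e k + 1) → ℤ, ∃ H₀ : ℕ, ∀ H : ℕ, H₀ ≤ H →
    (((bx n e H).filter (fun c => (∀ k m, (M : ℤ) ∣ c k m - γ k m) ∧
      ∃ p : ℕ, p.Prime ∧ ¬ p ∣ M ∧ ∃ k, ∀ j, (p : ℤ) ∣ line b i₁ (c k) j)).card : ℝ) ≤
      C / P * (((2 * H + 1 : ℕ) : ℝ) / M) ^ sz n e

/-- Part LSOL: good points over `ℚ_p` for binary forms which do not vanish modulo a large `p`. -/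
def S_LSOL : Prop := ∀ (ι : Type) [Fintype ι] [DecidableEq ι] (e : ι → ℕ) (T : Typ ι e) (p : ℕ)
  [Fact p.Prime], p ≠ 2 → (∑ k, (e k + 1)) ≤ p → ∀ c : (k : ι) → Fin (e k + 2) → ℤ,
    (∀ k, ∃ j, ¬ (p : ℤ) ∣ c k j) → ∃ x y : ℚ_[p], Pt1 T c x y

/-- Part CHO: choice of the base point of the line. -/
def S_CHO : Prop := ∀ (n : ℕ) (i₀ i₂ : Fin (n + 1)), i₀ ≠ i₂ → ∀ M : ℕ, 1 ≤ M →
  ∀ (a : Fin (n + 1) → ℤ) (x : Fin (n + 1) → ℝ) (δ : ℝ), 0 < δ →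
  ∃ (b : Fin (n + 1) → ℤ) (t : ℝ), 0 < t ∧ (∀ i, (M : ℤ) ∣ b i - a i) ∧
    (∀ i, |(b i : ℝ) / t - x i| < δ) ∧ b i₀ ≠ 0 ∧ b i₂ ≠ 0 ∧
    ∀ p : ℕ, p.Prime → (p : ℤ) ∣ b i₀ → (p : ℤ) ∣ b i₂ → p ∣ M

/-- The main theorem. -/
def S_MAIN : Prop := ∀ (n : ℕ) (ι : Type) [Fintype ι] [DecidableEq ι] (e : ι → ℕ) (T : Typ ι e),
  2 ≤ n → HP1 T → HPN T n

/-- The positive proportion. -/
def S_POS : Prop := ∀ (n : ℕ) (ι : Type) [Fintype ι] [DecidableEq ι] (e : ι → ℕ) (T : Typ ι e),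
  1 ≤ n → PP1 T → PPN T n

/-- Part UN3: a conic with unit coefficients has points. -/
def S_UN3 : Prop := ∀ (p : ℕ) [Fact p.Prime], p ≠ 2 → ∀ A B C : ℚ_[p], ‖A‖ = 1 → ‖B‖ = 1 → ‖C‖ = 1 →
  ∃ u v w : ℚ_[p], (u ≠ 0 ∨ v ≠ 0 ∨ w ≠ 0) ∧ A * u ^ 2 + B * v ^ 2 = C * w ^ 2

open Classical in
/-- Part SMO: almost all families are smooth over all fields. -/
def S_SMO : Prop := ∀ (n : ℕ) (ι : Type) [Fintype ι] [DecidableEq ι] (e : ι → ℕ) (ε : ℝ), 0 < ε →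
  ∃ H₀ : ℕ, ∀ H : ℕ, H₀ ≤ H → (((bx n e H).filter (fun c =>
    ¬ ∀ (K : Type) [Field K] [CharZero K], Smo (ic c K))).card : ℝ) ≤
      ε * ((2 * H + 1 : ℕ) : ℝ) ^ sz n e

end Pool.Agent.N546.PN
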