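import Mathlib
import Pool.Agent.N546.PN.Stm

/-!
# Project PN (helper546), second part: points over degenerate fibres, conics
-/

set_option autoImplicit false
set_option linter.all false

namespace Pool.Agent.N546.PN

open Finset Filter Topology

/-- Part DEN: on a smooth family points near `x` where the vanishing forms get prescribed small values. -/
def S_DEN (K : Type) [NontriviallyNormedField K] : Prop :=
  ∀ (n : ℕ) (ι : Type) [Fintype ι] [DecidableEq ι] (e : ι → ℕ) (T : Typ ι e)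
    (c : (k : ι) → Mon n (e k + 1) → K) (x : Fin (n + 1) → K), x ≠ 0 → Smo c →
    (∀ δ : ℝ, 0 < δ → ∃ w : ι → K, (∀ k, w k ≠ 0) ∧ (∀ k, val (c k) x ≠ 0 → w k = val (c k) x) ∧
      (∀ k, val (c k) x = 0 → ‖w k‖ < δ) ∧ T.S K w) → ∃ x', Pt T c x'

/-- The conics `a_{i,0} u² + a_{i,1} v² = a_{i,2} w²` have points. -/
def C3 {r : ℕ} {K : Type} [Field K] (a : Fin r × Fin 3 → K) : Prop :=
  ∀ i, ∃ u v w : K, (u ≠ 0 ∨ v ≠ 0 ∨ w ≠ 0) ∧ a (i, 0) * u ^ 2 + a (i, 1) * v ^ 2 = a (i, 2) * w ^ 2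

/-- Part FILL: small changes of the vanishing coefficients of conics with points. -/
def S_FILL (K : Type) [NontriviallyNormedField K] : Prop := ∀ (r : ℕ) (a : Fin r × Fin 3 → K),
  C3 a → ∀ δ : ℝ, 0 < δ → ∃ w : Fin r × Fin 3 → K, (∀ k, w k ≠ 0) ∧ (∀ k, a k ≠ 0 → w k = a k) ∧
    (∀ k, a k = 0 → ‖w k‖ < δ) ∧ C3 w

/-- The type of the fibre products of diagonal conic bundles. -/
def typ3 {r : ℕ} (e : Fin r × Fin 3 → ℕ) (he : ∀ i l l', e (i, l) % 2 = e (i, l') % 2)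
    (hun : S_UN3) : Typ (Fin r × Fin 3) e where
  S := fun K _ a => C3 a
  sq := by
    intro K _ a z hz h i
    obtain ⟨u, v, w, h1, h2⟩ := h i
    refine ⟨u / z (i, 0), v / z (i, 1), w / z (i, 2), ?_, ?_⟩
    · rcases h1 with h1 | h1 | h1
      · exact Or.inl (div_ne_zero h1 (hz _))
      · exact Or.inr (Or.inl (div_ne_zero h1 (hz _)))
      · exact Or.inr (Or.inr (div_ne_zero h1 (hz _)))
    · have a0 := hz (i, 0)
      have a1 := hz (i, 1)
      have a2 := hz (i, 2)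
      field_simp
      exact h2
  sc := by
    intro K _ a t ht h i
    obtain ⟨u, v, w, h1, h2⟩ := h i
    have key : ∀ l : Fin 3, ∃ s : K, s ≠ 0 ∧ t ^ (e (i, l) + 1) = t ^ (e (i, 0) % 2 + 1) * s ^ 2 := by
      intro l
      refine ⟨t ^ (e (i, l) / 2), pow_ne_zero _ ht, ?_⟩
      rw [← pow_mul, ← pow_add]
      congr 1
      have := he i l 0
      omega
    obtain ⟨s0, hs0, k0⟩ := key 0
    obtain ⟨s1, hs1, k1⟩ := key 1
    obtain ⟨s2, hs2, k2⟩ := key 2
    refine ⟨u / s0, v / s1, w / s2, ?_, ?_⟩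
    · rcases h1 with h1 | h1 | h1
      · exact Or.inl (div_ne_zero h1 hs0)
      · exact Or.inr (Or.inl (div_ne_zero h1 hs1))
      · exact Or.inr (Or.inr (div_ne_zero h1 hs2))
    · simp only
      rw [k0, k1, k2]
      have e0 : t ^ (e (i, 0) % 2 + 1) * s0 ^ 2 * a (i, 0) * (u / s0) ^ 2 =
          t ^ (e (i, 0) % 2 + 1) * (a (i, 0) * u ^ 2) := by
        field_simp
      have e1 : t ^ (e (i, 0) % 2 + 1) * s1 ^ 2 * a (i, 1) * (v / s1) ^ 2 =
          t ^ (e (i, 0) % 2 + 1) * (a (i, 1) * v ^ 2) := by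
        field_simp
      have e2 : t ^ (e (i, 0) % 2 + 1) * s2 ^ 2 * a (i, 2) * (w / s2) ^ 2 =
          t ^ (e (i, 0) % 2 + 1) * (a (i, 2) * w ^ 2) := by
        field_simp
      rw [e0, e1, e2, ← mul_add, h2]
  un := by
    intro p _ hp a ha i
    exact hun p hp (a (i, 0)) (a (i, 1)) (a (i, 2)) (ha _) (ha _) (ha _)

end Pool.Agent.N546.PN
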