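import Mathlib
import Pool.Agent.N546.PN.Stm2
import Pool.Agent.N718.DC.Stm4

/-!
# Project PW (helper546): weak approximation for diagonal conic bundles over projective spaces

Definitions and statements of the parts.
-/

set_option autoImplicit false
set_option linter.all false

namespace Pool.Agent.N546.PN

open Finset Filter Topology

/-- The points `z i` lie on the conics with the coefficients `a (i, ·)`. -/
def On {r : ℕ} {K : Type} [Field K] (a : Fin r × Fin 3 → K) (z : Fin r → Fin 3 → K) : Prop :=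
  ∀ i, z i ≠ 0 ∧ a (i, 0) * z i 0 ^ 2 + a (i, 1) * z i 1 ^ 2 = a (i, 2) * z i 2 ^ 2

/-- Part SQW: numbers close to `a ≠ 0` are `a` times squares of numbers close to `1`. -/
def S_SQW (K : Type) [NontriviallyNormedField K] : Prop :=
  ∀ a : K, a ≠ 0 → ∀ ε : ℝ, 0 < ε → ∃ δ : ℝ, 0 < δ ∧ ∀ a' : K, ‖a' - a‖ < δ →
    ∃ s : K, ‖s - 1‖ < ε ∧ s ≠ 0 ∧ a' = a * s ^ 2

/-- Part FILW: a point on a degenerate conic is close to a point on a nondegenerate one. -/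
def S_FILW (K : Type) [NontriviallyNormedField K] : Prop :=
  ∀ (a z : Fin 3 → K), z ≠ 0 → a 0 * z 0 ^ 2 + a 1 * z 1 ^ 2 = a 2 * z 2 ^ 2 →
    ∀ ε : ℝ, 0 < ε → ∃ w z' : Fin 3 → K, (∀ l, w l ≠ 0) ∧ (∀ l, a l ≠ 0 → w l = a l) ∧
      (∀ l, a l = 0 → ‖w l‖ < ε) ∧ (∀ l, ‖z' l - z l‖ < ε) ∧ z' ≠ 0 ∧
      w 0 * z' 0 ^ 2 + w 1 * z' 1 ^ 2 = w 2 * z' 2 ^ 2

/-- The position `(x', δ)` is good for the family `c` and the point `z`: over all base points near `x'`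
every family near `c` has nondegenerate conics with a point near `z`. -/
def Gd {n r : ℕ} {e : Fin r × Fin 3 → ℕ} {K : Type} [NontriviallyNormedField K]
    (c : (k : Fin r × Fin 3) → Mon n (e k + 1) → K) (z : Fin r → Fin 3 → K)
    (x' : Fin (n + 1) → K) (δ ε : ℝ) : Prop :=
  ∀ (c'' : (k : Fin r × Fin 3) → Mon n (e k + 1) → K) (x'' : Fin (n + 1) → K),
    (∀ k m, ‖c'' k m - c k m‖ < δ) → (∀ i, ‖x'' i - x' i‖ < δ) →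
      (∀ k, val (c'' k) x'' ≠ 0) ∧ ∃ z'' : Fin r → Fin 3 → K, (∀ i l, ‖z'' i l - z i l‖ < ε) ∧
        On (fun k => val (c'' k) x'') z''

/-- Part LOCW: local points of smooth families have good positions nearby. -/
def S_LOCW (K : Type) [NontriviallyNormedField K] : Prop :=
  ∀ (n r : ℕ) (e : Fin r × Fin 3 → ℕ) (c : (k : Fin r × Fin 3) → Mon n (e k + 1) → K)
    (x : Fin (n + 1) → K) (z : Fin r → Fin 3 → K), Smo c → x ≠ 0 → On (fun k => val (c k) x) z →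
    ∀ ε : ℝ, 0 < ε → ∃ x' : Fin (n + 1) → K, (∀ i, ‖x' i - x i‖ < ε) ∧ ∃ δ : ℝ, 0 < δ ∧
      Gd c z x' δ ε

/-- All normalised real points are near to good positions from the list `xs`. -/
def StR {n r : ℕ} {e : Fin r × Fin 3 → ℕ} (ε' : ℝ) {R : ℕ} (xs : Fin R → Fin (n + 1) → ℝ) (δ : ℝ)
    (c : (k : Fin r × Fin 3) → Mon n (e k + 1) → ℤ) : Prop :=
  ∀ (x : Fin (n + 1) → ℝ) (z : Fin r → Fin 3 → ℝ), ‖x‖ = 1 → (∀ i, ‖z i‖ = 1) →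
    On (fun k => val (ic c ℝ k) x) z → ∃ j : Fin R, (∀ i, |xs j i - x i| < ε') ∧
      ∀ x'' : Fin (n + 1) → ℝ, (∀ i, |x'' i - xs j i| < δ) → (∀ k, val (ic c ℝ k) x'' ≠ 0) ∧
        ∃ z'' : Fin r → Fin 3 → ℝ, (∀ i l, |z'' i l - z i l| < ε') ∧
          On (fun k => val (ic c ℝ k) x'') z''

open Classical in
/-- Part REALW: for most of the families all real points are near to good positions from a finite
list. -/
def S_REALW : Prop := ∀ (n r : ℕ) (e : Fin r × Fin 3 → ℕ) (ε ε' : ℝ), 0 < ε → 0 < ε' →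
  ∃ (R : ℕ) (xs : Fin R → Fin (n + 1) → ℝ) (δ : ℝ), 0 < δ ∧ ∃ H₀ : ℕ, ∀ H : ℕ, H₀ ≤ H →
    (((bx n e H).filter (fun c => ¬ StR ε' xs δ c)).card : ℝ) ≤ ε * ((2 * H + 1 : ℕ) : ℝ) ^ sz n e

/-- Everything congruent to `(c, a)` modulo `p ^ N` has a point near `z`. -/
def StabW {n r : ℕ} {e : Fin r × Fin 3 → ℕ} (p : ℕ) [Fact p.Prime] (N : ℕ) (ε' : ℝ)
    (c : (k : Fin r × Fin 3) → Mon n (e k + 1) → ℤ) (a : Fin (n + 1) → ℤ)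
    (z : Fin r → Fin 3 → ℚ_[p]) : Prop :=
  ∀ (c' : (k : Fin r × Fin 3) → Mon n (e k + 1) → ℤ) (a' : Fin (n + 1) → ℤ),
    (∀ k m, (p : ℤ) ^ N ∣ c' k m - c k m) → (∀ i, (p : ℤ) ^ N ∣ a' i - a i) →
      (∀ k, val (ic c' ℚ_[p] k) (fun i => ((a' i : ℤ) : ℚ_[p])) ≠ 0) ∧
        ∃ z'' : Fin r → Fin 3 → ℚ_[p], (∀ i l, ‖z'' i l - z i l‖ < ε') ∧
          On (fun k => val (ic c' ℚ_[p] k) (fun i => ((a' i : ℤ) : ℚ_[p]))) z''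

/-- All normalised `p`-adic points are near to stable ones. -/
def StP {n r : ℕ} {e : Fin r × Fin 3 → ℕ} (p : ℕ) [Fact p.Prime] (N : ℕ) (ε' : ℝ)
    (c : (k : Fin r × Fin 3) → Mon n (e k + 1) → ℤ) : Prop :=
  ∀ (x : Fin (n + 1) → ℚ_[p]) (z : Fin r → Fin 3 → ℚ_[p]), ‖x‖ = 1 → (∀ i, ‖z i‖ = 1) →
    On (fun k => val (ic c ℚ_[p] k) x) z →
      ∃ a : Fin (n + 1) → ℤ, (∀ i, ‖((a i : ℤ) : ℚ_[p]) - x i‖ < ε') ∧ StabW p N ε' c a z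

open Classical in
/-- Part PADW: for most of the families all `p`-adic points are near to stable ones. -/
def S_PADW : Prop := ∀ (n r : ℕ) (e : Fin r × Fin 3 → ℕ) (p : ℕ) [Fact p.Prime] (ε ε' : ℝ), 0 < ε →
  0 < ε' → ε' ≤ 1 → ∃ N₀ : ℕ, ∀ N : ℕ, N₀ ≤ N → ∃ H₀ : ℕ, ∀ H : ℕ, H₀ ≤ H →
    (((bx n e H).filter (fun c => ¬ StP p N ε' c)).card : ℝ) ≤ ε * ((2 * H + 1 : ℕ) : ℝ) ^ sz n e

/-! ### Weak approximation -/

/-- Weak approximation of normalised points at the real place and the primes up to `m` to precision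
`2 ε`. -/
def WAn {n r : ℕ} {e : Fin r × Fin 3 → ℕ} (m : ℕ) (ε : ℝ)
    (c : (k : Fin r × Fin 3) → Mon n (e k + 1) → ℤ) : Prop :=
  ∀ (X : (p : Nat.Primes) → Fin (n + 1) → ℚ_[(p : ℕ)])
    (Z : (p : Nat.Primes) → Fin r → Fin 3 → ℚ_[(p : ℕ)])
    (XR : Fin (n + 1) → ℝ) (ZR : Fin r → Fin 3 → ℝ),
    (∀ p : Nat.Primes, (p : ℕ) ≤ m → ‖X p‖ = 1 ∧ (∀ i, ‖Z p i‖ = 1) ∧
      On (fun k => val (ic c ℚ_[(p : ℕ)] k) (X p)) (Z p)) →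
    ‖XR‖ = 1 → (∀ i, ‖ZR i‖ = 1) → On (fun k => val (ic c ℝ k) XR) ZR →
    ∃ (x : Fin (n + 1) → ℚ) (z : Fin r → Fin 3 → ℚ), x ≠ 0 ∧ On (fun k => val (ic c ℚ k) x) z ∧
      (∀ p : Nat.Primes, (p : ℕ) ≤ m →
        Pool.Agent.N718.DC.Near (2 * ε) (X p) (fun j => (x j : ℚ_[(p : ℕ)])) ∧
        ∀ i, Pool.Agent.N718.DC.Near (2 * ε) (Z p i) (fun j => (z i j : ℚ_[(p : ℕ)]))) ∧
      Pool.Agent.N718.DC.Near (2 * ε) XR (fun j => (x j : ℝ)) ∧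
        ∀ i, Pool.Agent.N718.DC.Near (2 * ε) (ZR i) (fun j => (z i j : ℝ))

/-- Weak approximation to precision `1 / m` at the real place and the primes up to `m`. -/
def WAm {n r : ℕ} {e : Fin r × Fin 3 → ℕ} (m : ℕ)
    (c : (k : Fin r × Fin 3) → Mon n (e k + 1) → ℤ) : Prop :=
  ∀ (X : (p : Nat.Primes) → Fin (n + 1) → ℚ_[(p : ℕ)])
    (Z : (p : Nat.Primes) → Fin r → Fin 3 → ℚ_[(p : ℕ)])
    (XR : Fin (n + 1) → ℝ) (ZR : Fin r → Fin 3 → ℝ),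
    (∀ p : Nat.Primes, X p ≠ 0 ∧ On (fun k => val (ic c ℚ_[(p : ℕ)] k) (X p)) (Z p)) →
    XR ≠ 0 → On (fun k => val (ic c ℝ k) XR) ZR →
    ∃ (x : Fin (n + 1) → ℚ) (z : Fin r → Fin 3 → ℚ), x ≠ 0 ∧ On (fun k => val (ic c ℚ k) x) z ∧
      (∀ p : Nat.Primes, (p : ℕ) ≤ m →
        Pool.Agent.N718.DC.Near (1 / (m : ℝ)) (X p) (fun j => (x j : ℚ_[(p : ℕ)])) ∧
        ∀ i, Pool.Agent.N718.DC.Near (1 / (m : ℝ)) (Z p i) (fun j => (z i j : ℚ_[(p : ℕ)]))) ∧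
      Pool.Agent.N718.DC.Near (1 / (m : ℝ)) XR (fun j => (x j : ℝ)) ∧
        ∀ i, Pool.Agent.N718.DC.Near (1 / (m : ℝ)) (ZR i) (fun j => (z i j : ℝ))

/-- Part NRM: normalisation of the points. -/
def S_NRM : Prop := ∀ (n r : ℕ) (e : Fin r × Fin 3 → ℕ) (m : ℕ), 1 ≤ m →
  ∀ c : (k : Fin r × Fin 3) → Mon n (e k + 1) → ℤ, WAn m (1 / (2 * (m : ℝ))) c → WAm m c

/-- Part GLUW: a rational base point near the local base points over which there are local points near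
the given ones. -/
def S_GLUW : Prop := ∀ (n r : ℕ) (e : Fin r × Fin 3 → ℕ), (∀ i l l', e (i, l) = e (i, l')) →
  ∀ (c : (k : Fin r × Fin 3) → Mon n (e k + 1) → ℤ) (m : ℕ) (ε : ℝ), 0 < ε → ε ≤ 1 / 2 →
  ∀ (q : Fin (n + 1) → ℤ) (s : ℝ), 0 < s → (∀ k, val (ic c ℚ k) (fun i => (q i : ℚ)) ≠ 0) →
  (∃ z : Fin r → Fin 3 → ℚ, On (fun k => val (ic c ℚ k) (fun i => (q i : ℚ))) z) →
  ∀ (X : (p : Nat.Primes) → Fin (n + 1) → ℚ_[(p : ℕ)])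
    (Z : (p : Nat.Primes) → Fin r → Fin 3 → ℚ_[(p : ℕ)])
    (XR : Fin (n + 1) → ℝ) (ZR : Fin r → Fin 3 → ℝ),
    (∀ p : Nat.Primes, (p : ℕ) ≤ m → ‖X p‖ = 1 ∧ (∀ i, ‖Z p i‖ = 1)) → ‖XR‖ = 1 →
    (∀ i, ‖ZR i‖ = 1) →
    (∀ p : Nat.Primes, (p : ℕ) ≤ m → (∀ i, ‖(q i : ℚ_[(p : ℕ)]) - X p i‖ < ε) ∧
      ∃ z'' : Fin r → Fin 3 → ℚ_[(p : ℕ)], (∀ i l, ‖z'' i l - Z p i l‖ < ε) ∧
        On (fun k => val (ic c ℚ_[(p : ℕ)] k) (fun i => ((q i : ℤ) : ℚ_[(p : ℕ)]))) z'') →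
    (∀ i, |(q i : ℝ) / s - XR i| < ε) →
    (∃ z'' : Fin r → Fin 3 → ℝ, (∀ i l, |z'' i l - ZR i l| < ε) ∧
        On (fun k => val (ic c ℝ k) (fun i => (q i : ℝ) / s)) z'') →
    ∃ (x : Fin (n + 1) → ℚ) (z : Fin r → Fin 3 → ℚ), x ≠ 0 ∧ On (fun k => val (ic c ℚ k) x) z ∧
      (∀ p : Nat.Primes, (p : ℕ) ≤ m →
        Pool.Agent.N718.DC.Near (2 * ε) (X p) (fun j => (x j : ℚ_[(p : ℕ)])) ∧
        ∀ i, Pool.Agent.N718.DC.Near (2 * ε) (Z p i) (fun j => (z i j : ℚ_[(p : ℕ)]))) ∧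
      Pool.Agent.N718.DC.Near (2 * ε) XR (fun j => (x j : ℝ)) ∧
        ∀ i, Pool.Agent.N718.DC.Near (2 * ε) (ZR i) (fun j => (z i j : ℝ))

open Classical in
/-- Part LINW: properties which are rare for binary forms are rare for the restrictions to a line. -/
def S_LINW : Prop := ∀ (n : ℕ) (ι : Type) [Fintype ι] [DecidableEq ι] (e : ι → ℕ)
  (Q : ((k : ι) → Fin (e k + 2) → ℤ) → Prop),
  (∀ η : ℝ, 0 < η → ∃ H₀ : ℕ, ∀ H : ℕ, H₀ ≤ H →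
    (((bx1 e H).filter Q).card : ℝ) ≤ η * ((2 * H + 1 : ℕ) : ℝ) ^ sz1 e) →
  ∀ (b : Fin (n + 1) → ℤ) (i₀ i₁ : Fin (n + 1)), i₀ ≠ i₁ → b i₀ ≠ 0 → ∀ η : ℝ, 0 < η →
    ∀ᶠ H : ℕ in atTop, (((bx n e H).filter (fun c => Q (fun k => line b i₁ (c k)))).card : ℝ) ≤
      η * ((2 * H + 1 : ℕ) : ℝ) ^ sz n e

open Classical in
/-- Part MAINW: the main theorem on weak approximation. -/
def S_MAINW : Prop := ∀ (n r : ℕ) (e : Fin r × Fin 3 → ℕ) (he : ∀ i l l', e (i, l) = e (i, l'))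
  (hun : S_UN3) (m : ℕ), 2 ≤ n → 1 ≤ m → ∀ η : ℝ, 0 < η → ∃ H₀ : ℕ, ∀ H : ℕ, H₀ ≤ H →
    (((bx n e H).filter (fun c =>
      LocN (typ3 e (fun i l l' => by rw [he i l l']) hun) c ∧ ¬ WAm m c)).card : ℝ) ≤
      η * ((2 * H + 1 : ℕ) : ℝ) ^ sz n e

end Pool.Agent.N546.PN
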