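import Mathlib
import Pool.Agent.N546.PN.Stm

/-!
# The main theorem of project PN (helper546)
-/

set_option autoImplicit false
set_option linter.all false

namespace Pool.Agent.N546.PN

open Finset Filter Topology

lemma val_smul {n D : ℕ} {K : Type} [Field K] (c : Mon n D → K) (t : K) (x : Fin (n + 1) → K) :
    val c (fun i => t * x i) = t ^ D * val c x := by
  unfold val
  rw [Finset.mul_sum]
  refine Finset.sum_congr rfl fun m _ => ?_
  have h1 : ∑ i, m.1 i = D := (Finset.mem_piAntidiag.1 m.2).1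
  simp only [mul_pow]
  rw [Finset.prod_mul_distrib, Finset.prod_pow_eq_pow_sum, h1]
  ring

lemma pt_smul {ι : Type} {n : ℕ} {e : ι → ℕ} (T : Typ ι e) {K : Type} [Field K]
    (c : (k : ι) → Mon n (e k + 1) → K) (x : Fin (n + 1) → K) (t : K) (ht : t ≠ 0) (h : Pt T c x) :
    Pt T c (fun i => t * x i) := by
  have h1 : (fun k => val (c k) (fun i => t * x i)) = fun k => t ^ (e k + 1) * val (c k) x := by
    funext k
    exact val_smul _ _ _
  refine ⟨fun k => ?_, ?_⟩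
  · rw [val_smul]
    exact mul_ne_zero (pow_ne_zero _ ht) (h.1 k)
  · rw [h1]
    exact T.sc K _ t ht h.2

lemma pt1_iff (hlin : S_LIN) {ι : Type} {n : ℕ} {e : ι → ℕ} (T : Typ ι e)
    (c : (k : ι) → Mon n (e k + 1) → ℤ) (b : Fin (n + 1) → ℤ) (i₁ : Fin (n + 1)) {K : Type} [Field K]
    (x y : K) : Pt1 T (fun k => line b i₁ (c k)) x y ↔
      Pt T (ic c K) (fun i => x * (b i : K) + if i = i₁ then y else 0) := by
  have h1 : (fun k => bval (line b i₁ (c k)) x y) =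
      fun k => val (ic c K k) (fun i => x * (b i : K) + if i = i₁ then y else 0) := by
    funext k
    exact hlin n (e k) b i₁ (c k) K x y
  unfold Pt1 Pt
  rw [h1]
  refine and_congr ?_ Iff.rfl
  exact forall_congr' fun k => by rw [congrFun h1 k]

lemma crt (P : ℕ) (N : ℕ → ℕ) {m : ℕ} (a : ℕ → Fin m → ℤ) :
    ∃ b : Fin m → ℤ, ∀ p : ℕ, p.Prime → p ≤ P → ∀ i, (p : ℤ) ^ N p ∣ b i - a p i := by
  classical
  set t : Finset ℕ := (Icc 1 P).filter Nat.Prime with ht
  have hpp : Set.Pairwise (t : Set ℕ) (Function.onFun Nat.Coprime (fun p => p ^ N p)) := by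
    intro p hp q hq hpq
    have hp' := (Finset.mem_filter.1 (Finset.mem_coe.1 hp)).2
    have hq' := (Finset.mem_filter.1 (Finset.mem_coe.1 hq)).2
    exact Nat.Coprime.pow _ _ ((Nat.coprime_primes hp' hq').2 hpq)
  have hs : ∀ p ∈ t, (fun p => p ^ N p) p ≠ 0 := by
    intro p hp
    exact pow_ne_zero _ (Finset.mem_filter.1 hp).2.ne_zero
  refine ⟨fun i => ((Nat.chineseRemainderOfFinset (fun p => (a p i % (p : ℤ) ^ N p).toNat)
    (fun p => p ^ N p) t hs hpp : ℕ) : ℤ), fun p hp hpP i => ?_⟩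
  have hpt : p ∈ t := Finset.mem_filter.2 ⟨Finset.mem_Icc.2 ⟨hp.one_le, hpP⟩, hp⟩
  have h1 := (Nat.chineseRemainderOfFinset (fun p => (a p i % (p : ℤ) ^ N p).toNat)
    (fun p => p ^ N p) t hs hpp).2 p hpt
  have h2 := (Int.natCast_modEq_iff.2 h1).symm.dvd
  push_cast at h2
  have hpos : (0 : ℤ) < (p : ℤ) ^ N p := by
    have := hp.pos
    positivity
  rw [Int.toNat_of_nonneg (Int.emod_nonneg _ hpos.ne')] at h2
  have h3 : (p : ℤ) ^ N p ∣ a p i % (p : ℤ) ^ N p - a p i := by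
    rw [← dvd_neg, neg_sub]
    exact Int.dvd_self_sub_emod
  have h4 := dvd_add h2 h3
  rw [sub_add_sub_cancel] at h4
  exact h4

lemma stab_congr {ι : Type} {n : ℕ} {e : ι → ℕ} (T : Typ ι e) (p : ℕ) [Fact p.Prime] (N : ℕ)
    (c c' : (k : ι) → Mon n (e k + 1) → ℤ) (a a' : Fin (n + 1) → ℤ) (h : Stab T p N c a)
    (hc : ∀ k m, (p : ℤ) ^ N ∣ c' k m - c k m) (ha : ∀ i, (p : ℤ) ^ N ∣ a' i - a i) :
    Stab T p N c' a' := by
  intro c'' a'' h1 h2
  refine h c'' a'' (fun k m => ?_) (fun i => ?_)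
  · have := dvd_add (h1 k m) (hc k m)
    rwa [sub_add_sub_cancel] at this
  · have := dvd_add (h2 i) (ha i)
    rwa [sub_add_sub_cancel] at this

open Classical in
/-- The number of families which are bad in a line. -/
lemma line_count (hpush : S_PUSH) {n : ℕ} {ι : Type} [Fintype ι] [DecidableEq ι] {e : ι → ℕ}
    (T : Typ ι e) (hHP : HP1 T) (b : Fin (n + 1) → ℤ) (i₀ i₁ : Fin (n + 1)) (hi : i₀ ≠ i₁)
    (hb : b i₀ ≠ 0) (η : ℝ) (hη : 0 < η) : ∀ᶠ H : ℕ in atTop,
      (((bx n e H).filter (fun c => Loc1 T (fun k => line b i₁ (c k)) ∧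
        ¬ Glob1 T (fun k => line b i₁ (c k)))).card : ℝ) ≤ η * ((2 * H + 1 : ℕ) : ℝ) ^ sz n e := by
  obtain ⟨C, hC1, hC⟩ := hpush n ι e b i₀ i₁ hi hb
  have hC0 : (0 : ℝ) < C := by exact_mod_cast hC1
  obtain ⟨H₀, hH₀⟩ := hHP (η / (C : ℝ) ^ sz1 e) (by positivity)
  filter_upwards [eventually_ge_atTop H₀] with H hH
  have h1 := hC H (fun g => Loc1 T g ∧ ¬ Glob1 T g)
  have h2 := hH₀ (C * H) (hH.trans (Nat.le_mul_of_pos_left _ hC1))
  have h3 : (((2 * (C * H) + 1 : ℕ) : ℝ)) ^ sz1 e ≤ ((C : ℝ) * ((2 * H + 1 : ℕ) : ℝ)) ^ sz1 e := by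
    refine pow_le_pow_left₀ (Nat.cast_nonneg _) ?_ _
    have : 2 * (C * H) + 1 ≤ C * (2 * H + 1) := by nlinarith
    exact_mod_cast this
  have hX : (0 : ℝ) < ((2 * H + 1 : ℕ) : ℝ) := by positivity
  have h4 : (((bx1 e (C * H)).filter (fun g => Loc1 T g ∧ ¬ Glob1 T g)).card : ℝ) ≤
      η * ((2 * H + 1 : ℕ) : ℝ) ^ sz1 e := by
    refine h2.trans ?_
    calc η / (C : ℝ) ^ sz1 e * ((2 * (C * H) + 1 : ℕ) : ℝ) ^ sz1 e
        ≤ η / (C : ℝ) ^ sz1 e * ((C : ℝ) * ((2 * H + 1 : ℕ) : ℝ)) ^ sz1 e := by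
          exact mul_le_mul_of_nonneg_left h3 (by positivity)
      _ = η * ((2 * H + 1 : ℕ) : ℝ) ^ sz1 e := by
          rw [mul_pow]
          field_simp
  have h5 : ((((bx n e H).filter (fun c => Loc1 T (fun k => line b i₁ (c k)) ∧
        ¬ Glob1 T (fun k => line b i₁ (c k)))).card : ℝ)) * ((2 * H + 1 : ℕ) : ℝ) ^ sz1 e ≤
      ((2 * H + 1 : ℕ) : ℝ) ^ sz n e *
        (((bx1 e (C * H)).filter (fun g => Loc1 T g ∧ ¬ Glob1 T g)).card : ℝ) := by
    have h1' : (((bx n e H).filter (fun c => Loc1 T (fun k => line b i₁ (c k)) ∧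
        ¬ Glob1 T (fun k => line b i₁ (c k)))).card) * (2 * H + 1) ^ sz1 e ≤
        (2 * H + 1) ^ sz n e *
        (((bx1 e (C * H)).filter (fun g => Loc1 T g ∧ ¬ Glob1 T g)).card) := by
      convert h1
    exact_mod_cast h1'
  have h6 := h5.trans (mul_le_mul_of_nonneg_left h4 (by positivity))
  have h7 : ((2 * H + 1 : ℕ) : ℝ) ^ sz n e * (η * ((2 * H + 1 : ℕ) : ℝ) ^ sz1 e) =
      (η * ((2 * H + 1 : ℕ) : ℝ) ^ sz n e) * ((2 * H + 1 : ℕ) : ℝ) ^ sz1 e := by ring
  rw [h7] at h6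
  exact le_of_mul_le_mul_right h6 (by positivity)

open Classical in
lemma card_le_four {α : Type} [DecidableEq α] {β γ : Type} (s A : Finset α) (t : Finset β)
    (B : β → Finset α) (u : Finset γ) (D E : γ → Finset α)
    (h : ∀ x ∈ s, x ∈ A ∨ (∃ i ∈ t, x ∈ B i) ∨ (∃ j ∈ u, x ∈ D j) ∨ (∃ j ∈ u, x ∈ E j)) :
    (s.card : ℝ) ≤ A.card + ∑ i ∈ t, ((B i).card : ℝ) + ∑ j ∈ u, ((D j).card : ℝ) +
      ∑ j ∈ u, ((E j).card : ℝ) := by
  have h1 : s ⊆ ((A ∪ t.biUnion B) ∪ u.biUnion D) ∪ u.biUnion E := by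
    intro x hx
    simp only [Finset.mem_union, Finset.mem_biUnion]
    rcases h x hx with h | h | h | h
    · exact Or.inl (Or.inl (Or.inl h))
    · exact Or.inl (Or.inl (Or.inr h))
    · exact Or.inl (Or.inr h)
    · exact Or.inr h
  have h2 := Finset.card_le_card h1
  have h3 := Finset.card_union_le ((A ∪ t.biUnion B) ∪ u.biUnion D) (u.biUnion E)
  have h4 := Finset.card_union_le (A ∪ t.biUnion B) (u.biUnion D)
  have h5 := Finset.card_union_le A (t.biUnion B)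
  have h6 : (t.biUnion B).card ≤ ∑ i ∈ t, (B i).card := Finset.card_biUnion_le
  have h7 : (u.biUnion D).card ≤ ∑ i ∈ u, (D i).card := Finset.card_biUnion_le
  have h8 : (u.biUnion E).card ≤ ∑ i ∈ u, (E i).card := Finset.card_biUnion_le
  have h9 : s.card ≤ A.card + ∑ i ∈ t, (B i).card + ∑ j ∈ u, (D j).card + ∑ j ∈ u, (E j).card := by
    omega
  exact_mod_cast h9

/-- The families for which there is no stable point modulo `p ^ N`. -/
def BadP {ι : Type} {n : ℕ} {e : ι → ℕ} (T : Typ ι e) (p : ℕ) (hp : Fact p.Prime) (N : ℕ)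
    (c : (k : ι) → Mon n (e k + 1) → ℤ) : Prop :=
  (∃ x : Fin (n + 1) → ℚ_[p], Pt T (ic c ℚ_[p]) x) ∧ ¬ ∃ a : Fin (n + 1) → ℤ, Stab T p N c a

open Classical in
theorem main_ (hlin : S_LIN) (hpush : S_PUSH) (htail : S_TAIL) (hlsol : S_LSOL) (hcho : S_CHO)
    (hreal : S_REALN) (hpad : S_PADN) : S_MAIN := by
  intro n ι _ _ e T hn hHP η hη
  -- the real place
  obtain ⟨R, xs, δ, hδ, H1, hR⟩ := hreal n ι e T (η / 5) (by positivity)
  -- the bound for the tail
  obtain ⟨C, hC0, hC⟩ := htail n ι e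
  obtain ⟨P, hP⟩ : ∃ P : ℕ, 2 ≤ P ∧ ∑ k, (e k + 1) ≤ P ∧ 5 * (C * R) / η ≤ P := by
    refine ⟨max 2 (max (∑ k, (e k + 1)) ⌈5 * (C * R) / η⌉₊), le_max_left _ _,
      (le_max_left _ _).trans (le_max_right _ _), ?_⟩
    refine (Nat.le_ceil _).trans ?_
    exact_mod_cast (le_max_right _ _).trans (le_max_right _ _)
  obtain ⟨hP2, hPe, hPC⟩ := hP
  have hP0 : (0 : ℝ) < P := by
    have : 0 < P := by omega
    exact_mod_cast this
  -- the places up to P
  have h3 : ∀ p : ℕ, ∃ N H₀ : ℕ, ∀ hp : Fact p.Prime, ∀ H : ℕ, H₀ ≤ H →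
      (((bx n e H).filter (fun c => BadP T p hp N c)).card : ℝ) ≤
        η / (5 * (P + 1)) * ((2 * H + 1 : ℕ) : ℝ) ^ sz n e := by
    intro p
    by_cases hp : p.Prime
    · haveI : Fact p.Prime := ⟨hp⟩
      obtain ⟨N, H₀, h⟩ := hpad n ι e T p (η / (5 * (P + 1))) (by positivity)
      refine ⟨N, H₀, fun hp' H hH => ?_⟩
      have h4 := h H hH
      convert h4
      exact Iff.rfl
    · exact ⟨0, 0, fun hp' => absurd hp'.out hp⟩
  choose Nf Hf h3 using h3
  set t : Finset ℕ := (Icc 1 P).filter Nat.Prime with ht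
  set M : ℕ := ∏ p ∈ t, p ^ (Nf p + 1) with hM
  have hMt : ∀ p : ℕ, p.Prime → p ≤ P → p ∈ t := fun p hp hpP =>
    Finset.mem_filter.2 ⟨Finset.mem_Icc.2 ⟨hp.one_le, hpP⟩, hp⟩
  have hM1 : 1 ≤ M := by
    refine Nat.one_le_iff_ne_zero.2 (Finset.prod_ne_zero_iff.2 fun p hp => ?_)
    exact pow_ne_zero _ (Finset.mem_filter.1 hp).2.ne_zero
  have hMdvd : ∀ p : ℕ, p.Prime → p ≤ P → p ^ (Nf p + 1) ∣ M := fun p hp hpP =>
    Finset.dvd_prod_of_mem (fun p => p ^ (Nf p + 1)) (hMt p hp hpP)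
  have hMp : ∀ p : ℕ, p.Prime → p ≤ P → p ∣ M := fun p hp hpP =>
    (dvd_pow_self p (Nat.succ_ne_zero _)).trans (hMdvd p hp hpP)
  have hMN : ∀ p : ℕ, p.Prime → p ≤ P → (p : ℤ) ^ Nf p ∣ (M : ℤ) := fun p hp hpP => by
    have h := (pow_dvd_pow p (Nat.le_succ (Nf p))).trans (hMdvd p hp hpP)
    exact_mod_cast h
  have hM0 : (0 : ℝ) < M := by exact_mod_cast hM1
  have i01 : (0 : Fin (n + 1)) ≠ 1 := by
    intro h
    have := congrArg Fin.val h
    rw [Fin.val_zero, Fin.val_one'] at this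
    rw [Nat.mod_eq_of_lt (by omega)] at this
    omega
  obtain ⟨i₂, hi2⟩ : ∃ i₂ : Fin (n + 1), i₂ ≠ 0 ∧ i₂ ≠ 1 := by
    refine ⟨⟨2, by omega⟩, ?_, ?_⟩
    · intro h
      have := congrArg Fin.val h
      rw [Fin.val_zero] at this
      simp at this
    · intro h
      have := congrArg Fin.val h
      rw [Fin.val_one', Nat.mod_eq_of_lt (by omega)] at this
      simp at this
  -- choice of the points
  have hG : ∀ γ : (k : ι) → Mon n (e k + 1) → ℤ, ∃ a : Fin (n + 1) → ℤ,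
      (∃ a' : Fin (n + 1) → ℤ, ∀ (p : ℕ) [Fact p.Prime], p ≤ P → Stab T p (Nf p) γ a') →
      ∀ (p : ℕ) [Fact p.Prime], p ≤ P → Stab T p (Nf p) γ a := by
    intro γ
    by_cases h : ∃ a' : Fin (n + 1) → ℤ, ∀ (p : ℕ) [Fact p.Prime], p ≤ P → Stab T p (Nf p) γ a'
    · obtain ⟨a', ha'⟩ := h
      exact ⟨a', fun _ => ha'⟩
    · exact ⟨0, fun h' => absurd h' h⟩
  choose A hA using hG
  have hB := fun (γ : (k : ι) → Mon n (e k + 1) → ℤ) (j : Fin R) =>
    hcho n 0 i₂ hi2.1.symm M hM1 (A γ) (xs j) δ hδ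
  choose b tt hB using hB
  set Γ : Finset ((k : ι) → Mon n (e k + 1) → ℤ) :=
    Fintype.piFinset (fun _ => Fintype.piFinset (fun _ => Ico (0 : ℤ) M)) with hΓ
  have hΓc : (Γ.card : ℝ) = (M : ℝ) ^ sz n e := by
    rw [hΓ, Fintype.card_piFinset]
    simp only [Fintype.card_piFinset, Int.card_Ico, Finset.prod_const, Finset.card_univ]
    rw [Finset.prod_pow_eq_pow_sum]
    have : ((M : ℤ) - 0).toNat = M := by simp
    rw [this]
    push_cast
    rfl
  set U : Finset (((k : ι) → Mon n (e k + 1) → ℤ) × Fin R) := Γ ×ˢ (Finset.univ : Finset (Fin R)) with hU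
  set η₂ : ℝ := η / (5 * (R + 1) * (M : ℝ) ^ sz n e) with hη2
  have hη2pos : 0 < η₂ := by positivity
  -- the exceptional sets
  set D : ℕ → ((((k : ι) → Mon n (e k + 1) → ℤ) × Fin R)) → Finset ((k : ι) → Mon n (e k + 1) → ℤ) :=
    fun H u => (bx n e H).filter (fun c => (∀ k m, (M : ℤ) ∣ c k m - u.1 k m) ∧
      ∃ p : ℕ, p.Prime ∧ ¬ p ∣ M ∧ ∃ k, ∀ j, (p : ℤ) ∣ line (b u.1 u.2) 1 (c k) j) with hD
  set E : ℕ → ((((k : ι) → Mon n (e k + 1) → ℤ) × Fin R)) → Finset ((k : ι) → Mon n (e k + 1) → ℤ) :=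
    fun H u => (bx n e H).filter (fun c => Loc1 T (fun k => line (b u.1 u.2) 1 (c k)) ∧
      ¬ Glob1 T (fun k => line (b u.1 u.2) 1 (c k))) with hE
  have hDc : ∀ᶠ H : ℕ in atTop, ∀ u ∈ U, ((D H u).card : ℝ) ≤
      C / P * (((2 * H + 1 : ℕ) : ℝ) / M) ^ sz n e := by
    rw [Filter.eventually_all_finset]
    intro u _
    obtain ⟨hb1, hb2, hb3, hb4, hb5, hb6⟩ := hB u.1 u.2
    obtain ⟨H₀, hH₀⟩ := hC P M (by omega) hM1 hMp (b u.1 u.2) 0 1 i₂ i01 hi2.2 hb4 hb5 hb6 u.1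
    filter_upwards [eventually_ge_atTop H₀] with H hH
    have h4 := hH₀ H hH
    convert h4
  have hEc : ∀ᶠ H : ℕ in atTop, ∀ u ∈ U, ((E H u).card : ℝ) ≤
      η₂ * ((2 * H + 1 : ℕ) : ℝ) ^ sz n e := by
    rw [Filter.eventually_all_finset]
    intro u _
    obtain ⟨hb1, hb2, hb3, hb4, hb5, hb6⟩ := hB u.1 u.2
    have h4 := line_count hpush T hHP (b u.1 u.2) 0 1 i01 hb4 η₂ hη2pos
    filter_upwards [h4] with H h5
    convert h5
  have hBc : ∀ᶠ H : ℕ in atTop, ∀ p ∈ t, ∀ hp : Fact p.Prime,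
      (((bx n e H).filter (fun c => BadP T p hp (Nf p) c)).card : ℝ) ≤
        η / (5 * (P + 1)) * ((2 * H + 1 : ℕ) : ℝ) ^ sz n e := by
    rw [Filter.eventually_all_finset]
    intro p _
    filter_upwards [eventually_ge_atTop (Hf p)] with H hH hp
    exact h3 p hp H hH
  obtain ⟨H₂, hH₂⟩ := eventually_atTop.1 (hDc.and (hEc.and hBc))
  refine ⟨max H1 H₂, fun H hH => ?_⟩
  obtain ⟨hD1, hE1, hB1⟩ := hH₂ H ((le_max_right _ _).trans hH)
  have hA1 := hR H ((le_max_left _ _).trans hH)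
  set X : ℝ := ((2 * H + 1 : ℕ) : ℝ) with hX
  have hX0 : 0 < X := by
    rw [hX]
    positivity
  set A1 : Finset ((k : ι) → Mon n (e k + 1) → ℤ) := (bx n e H).filter (fun c =>
    (∃ x : Fin (n + 1) → ℝ, Pt T (ic c ℝ) x) ∧
      ¬ ∃ j : Fin R, ∀ x' : Fin (n + 1) → ℝ, (∀ i, |x' i - xs j i| < δ) → Pt T (ic c ℝ) x') with hA1d
  set B1 : ℕ → Finset ((k : ι) → Mon n (e k + 1) → ℤ) := fun p =>
    if hp : p.Prime then (bx n e H).filter (fun c => BadP T p ⟨hp⟩ (Nf p) c) else ∅ with hB1d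
  have hcover := card_le_four ((bx n e H).filter (fun c => LocN T c ∧ ¬ GlobN T c)) A1 t B1 U (D H) (E H)
    (by
      intro c hc
      obtain ⟨hcb, ⟨hcr, hcp⟩, hcg⟩ := Finset.mem_filter.1 hc
      by_contra hcon
      rw [not_or, not_or, not_or] at hcon
      obtain ⟨g1, g2, g3, g4⟩ := hcon
      apply hcg
      -- the real place
      have r1 : ∃ j : Fin R, ∀ x' : Fin (n + 1) → ℝ, (∀ i, |x' i - xs j i| < δ) →
          Pt T (ic c ℝ) x' := by
        by_contra h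
        exact g1 (Finset.mem_filter.2 ⟨hcb, hcr, h⟩)
      obtain ⟨j, hj⟩ := r1
      -- the small primes
      have p1 : ∀ p : ℕ, ∃ a : Fin (n + 1) → ℤ, ∀ hp : Fact p.Prime, p ≤ P → Stab T p (Nf p) c a := by
        intro p
        by_cases hp : p.Prime
        · by_cases hpP : p ≤ P
          · haveI : Fact p.Prime := ⟨hp⟩
            have h : ∃ a : Fin (n + 1) → ℤ, Stab T p (Nf p) c a := by
              by_contra h
              refine g2 ⟨p, hMt p hp hpP, ?_⟩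
              rw [hB1d]
              simp only [dif_pos hp]
              exact Finset.mem_filter.2 ⟨hcb, hcp p, h⟩
            obtain ⟨a, ha⟩ := h
            exact ⟨a, fun _ _ => ha⟩
          · exact ⟨0, fun _ h => absurd h hpP⟩
        · exact ⟨0, fun h => absurd h.out hp⟩
      choose a ha using p1
      obtain ⟨a', ha'⟩ := crt P Nf a
      -- the residue class
      set γ : (k : ι) → Mon n (e k + 1) → ℤ := fun k m => c k m % (M : ℤ) with hγ
      have hMz : (0 : ℤ) < M := by exact_mod_cast hM1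
      have hγΓ : γ ∈ Γ := by
        rw [hΓ, Fintype.mem_piFinset]
        intro k
        rw [Fintype.mem_piFinset]
        intro m
        rw [Finset.mem_Ico]
        exact ⟨Int.emod_nonneg _ hMz.ne', Int.emod_lt_of_pos _ hMz⟩
      have hcγ : ∀ k m, (M : ℤ) ∣ c k m - γ k m := fun k m => Int.dvd_self_sub_emod
      have hγc : ∀ k m, (M : ℤ) ∣ γ k m - c k m := fun k m => by
        rw [← dvd_neg, neg_sub]
        exact hcγ k m
      have hS1 : ∀ (p : ℕ) [Fact p.Prime], p ≤ P → Stab T p (Nf p) γ a' := by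
        intro p hp hpP
        exact stab_congr T p (Nf p) c γ (a p) a' (ha p hp hpP)
          (fun k m => (hMN p hp.out hpP).trans (hγc k m)) (ha' p hp.out hpP)
      have hS2 := hA γ ⟨a', hS1⟩
      obtain ⟨hb1, hb2, hb3, hb4, hb5, hb6⟩ := hB γ j
      have hUm : (γ, j) ∈ U := by
        rw [hU]
        exact Finset.mem_product.2 ⟨hγΓ, Finset.mem_univ _⟩
      -- the line
      have e0 : ∀ (K : Type) [Field K], (fun i => (1 : K) * (b γ j i : K) +
          if i = 1 then (0 : K) else 0) = fun i => (b γ j i : K) := by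
        intro K _
        funext i
        simp
      have hreal1 : Pt T (ic c ℝ) (fun i => (b γ j i : ℝ)) := by
        have h5 := hj (fun i => (b γ j i : ℝ) / tt γ j) hb3
        have h6 := pt_smul T (ic c ℝ) _ (tt γ j) hb1.ne' h5
        have h7 : (fun i => tt γ j * ((b γ j i : ℝ) / tt γ j)) = fun i => (b γ j i : ℝ) := by
          funext i
          field_simp
        rwa [h7] at h6
      have hloc : Loc1 T (fun k => line (b γ j) 1 (c k)) := by
        constructor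
        · refine ⟨0, (pt1_iff hlin T c (b γ j) 1 (1 : ℝ) 0).2 ?_⟩
          rw [e0 ℝ]
          exact hreal1
        · intro p hp
          by_cases hpP : p ≤ P
          · refine ⟨1, 0, (pt1_iff hlin T c (b γ j) 1 (1 : ℚ_[p]) 0).2 ?_⟩
            rw [e0 ℚ_[p]]
            exact hS2 p hpP c (b γ j) (fun k m => (hMN p hp.out hpP).trans (hcγ k m))
              (fun i => (hMN p hp.out hpP).trans (hb2 i))
          · have hpM : ¬ p ∣ M := by
              intro hdvd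
              rw [hM, Prime.dvd_finset_prod_iff hp.out.prime] at hdvd
              obtain ⟨q, hq, hpq⟩ := hdvd
              have hq' := Finset.mem_filter.1 hq
              have h8 := hp.out.dvd_of_dvd_pow hpq
              have h9 := (Nat.prime_dvd_prime_iff_eq hp.out hq'.2).1 h8
              rw [h9] at hpP
              exact hpP (Finset.mem_Icc.1 hq'.1).2
            refine hlsol ι e T p (by omega) (by omega) _ ?_
            intro k
            by_contra h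
            push Not at h
            refine g3 ⟨(γ, j), hUm, Finset.mem_filter.2 ⟨hcb, hcγ, p, hp.out, hpM, k, h⟩⟩
      have hglob : Glob1 T (fun k => line (b γ j) 1 (c k)) := by
        by_contra h
        exact g4 ⟨(γ, j), hUm, Finset.mem_filter.2 ⟨hcb, hloc, h⟩⟩
      obtain ⟨x, y, hxy⟩ := hglob
      exact ⟨_, (pt1_iff hlin T c (b γ j) 1 x y).1 hxy⟩)
  refine hcover.trans ?_
  have hXM : (X / M) ^ sz n e * (M : ℝ) ^ sz n e = X ^ sz n e := by
    rw [← mul_pow, div_mul_cancel₀ _ hM0.ne']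
  have hXN : 0 ≤ X ^ sz n e := by positivity
  have q1 : (A1.card : ℝ) ≤ η / 5 * X ^ sz n e := hA1
  have q2 : ∑ p ∈ t, ((B1 p).card : ℝ) ≤ η / 5 * X ^ sz n e := by
    have h5 : ∀ p ∈ t, ((B1 p).card : ℝ) ≤ η / (5 * (P + 1)) * X ^ sz n e := by
      intro p hp
      have hp' := (Finset.mem_filter.1 hp).2
      rw [hB1d]
      simp only [dif_pos hp']
      exact hB1 p hp ⟨hp'⟩
    refine (Finset.sum_le_sum h5).trans ?_
    rw [Finset.sum_const, nsmul_eq_mul]
    have h6 : (t.card : ℝ) ≤ P + 1 := by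
      have : t.card ≤ P := (Finset.card_filter_le _ _).trans (by simp)
      have h7 : (t.card : ℝ) ≤ P := by exact_mod_cast this
      linarith
    calc (t.card : ℝ) * (η / (5 * (P + 1)) * X ^ sz n e)
        ≤ (P + 1) * (η / (5 * (P + 1)) * X ^ sz n e) :=
          mul_le_mul_of_nonneg_right h6 (by positivity)
      _ = η / 5 * X ^ sz n e := by
          field_simp
  have hUc : (U.card : ℝ) = (M : ℝ) ^ sz n e * R := by
    rw [hU, Finset.card_product, Nat.cast_mul, hΓc]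
    simp
  have q3 : ∑ u ∈ U, ((D H u).card : ℝ) ≤ η / 5 * X ^ sz n e := by
    refine (Finset.sum_le_sum hD1).trans ?_
    rw [Finset.sum_const, nsmul_eq_mul, hUc]
    have h5 : (M : ℝ) ^ sz n e * R * (C / P * (X / M) ^ sz n e) =
        (C * R / P) * ((X / M) ^ sz n e * (M : ℝ) ^ sz n e) := by ring
    rw [h5, hXM]
    refine mul_le_mul_of_nonneg_right ?_ hXN
    rw [div_le_iff₀ hP0]
    rw [div_le_iff₀ hη] at hPC
    linarith
  have q4 : ∑ u ∈ U, ((E H u).card : ℝ) ≤ η / 5 * X ^ sz n e := by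
    refine (Finset.sum_le_sum hE1).trans ?_
    rw [Finset.sum_const, nsmul_eq_mul, hUc, hη2]
    have hMN0 : (0 : ℝ) < (M : ℝ) ^ sz n e := by positivity
    calc (M : ℝ) ^ sz n e * R * (η / (5 * (R + 1) * (M : ℝ) ^ sz n e) * X ^ sz n e)
        = (R / (R + 1)) * (η / 5 * X ^ sz n e) := by
          field_simp
      _ ≤ 1 * (η / 5 * X ^ sz n e) := by
          refine mul_le_mul_of_nonneg_right ?_ (by positivity)
          rw [div_le_one (by positivity)]
          linarith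
      _ = η / 5 * X ^ sz n e := one_mul _
  have h9 : η / 5 * X ^ sz n e + η / 5 * X ^ sz n e + η / 5 * X ^ sz n e + η / 5 * X ^ sz n e ≤
      η * X ^ sz n e := by nlinarith [mul_nonneg hη.le hXN]
  linarith

end Pool.Agent.N546.PN
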