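import Mathlib
import Pool.Agent.N546.PN.Stm

/-!
Project PN (helper546), part SMR (helper75): a polynomial is rarely small over the real numbers.
-/

set_option autoImplicit false

namespace Pool.Agent.N546.PN.Smr

open Finset Pool.Agent.N546.PN

/-- integers in an interval -/
theorem ivl (U : Finset ℤ) (x r : ℝ) (hr : 0 ≤ r) (hU : ∀ t ∈ U, |(t : ℝ) - x| < r) :
    (U.card : ℝ) ≤ 2 * r + 1 := by
  have h1 : U ⊆ Finset.Icc ⌈x - r⌉ ⌊x + r⌋ := by
    intro t ht
    have h2 := abs_lt.1 (hU t ht)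
    rw [Finset.mem_Icc, Int.ceil_le, Int.le_floor]
    constructor <;> linarith [h2.1, h2.2]
  have h3 := Finset.card_le_card h1
  rw [Int.card_Icc] at h3
  have h4 : (U.card : ℝ) ≤ ((⌊x + r⌋ + 1 - ⌈x - r⌉).toNat : ℝ) := by exact_mod_cast h3
  refine h4.trans ?_
  by_cases h5 : 0 ≤ ⌊x + r⌋ + 1 - ⌈x - r⌉
  · have h6 : (((⌊x + r⌋ + 1 - ⌈x - r⌉).toNat : ℤ) : ℝ) = ((⌊x + r⌋ + 1 - ⌈x - r⌉ : ℤ) : ℝ) := by
      rw [Int.toNat_of_nonneg h5]
    have h7 : ((⌊x + r⌋ + 1 - ⌈x - r⌉).toNat : ℝ) = ((⌊x + r⌋ + 1 - ⌈x - r⌉ : ℤ) : ℝ) := by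
      rw [← h6, Int.cast_natCast]
    rw [h7]
    push_cast
    have h8 := Int.floor_le (x + r)
    have h9 := Int.le_ceil (x - r)
    linarith
  · rw [Int.toNat_of_nonpos (by omega)]
    push_cast
    linarith

theorem prod_ge (δ : ℝ) (hδ : 0 ≤ δ) (z : ℂ) (m : Multiset ℂ) (hm : ∀ ρ ∈ m, δ ≤ ‖z - ρ‖) :
    δ ^ (Multiset.card m) ≤ ‖(m.map (z - ·)).prod‖ := by
  induction m using Multiset.induction_on with
  | empty => simp
  | cons a m ih =>
    rw [Multiset.card_cons, Multiset.map_cons, Multiset.prod_cons, norm_mul, pow_succ, mul_comm]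
    exact mul_le_mul (hm a (Multiset.mem_cons_self a m))
      (ih (fun ρ hρ => hm ρ (Multiset.mem_cons_of_mem hρ))) (pow_nonneg hδ _) (norm_nonneg _)

/-- small values are near the real part of a root -/
theorem near (f : Polynomial ℝ) (δ η : ℝ) (hδ : 0 ≤ δ) (hη : η ≤ |f.leadingCoeff| * δ ^ f.natDegree)
    (t : ℝ) (ht : |f.eval t| < η) :
    ∃ ρ ∈ (f.map (algebraMap ℝ ℂ)).roots, |t - ρ.re| < δ := by
  by_contra hcon
  push Not at hcon
  obtain ⟨g, hg⟩ : ∃ g : Polynomial ℂ, g = f.map (algebraMap ℝ ℂ) := ⟨_, rfl⟩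
  rw [← hg] at hcon
  have hs : g.Splits := IsAlgClosed.splits g
  have h1 := hs.eval_eq_prod_roots (t : ℂ)
  have h2 := hs.natDegree_eq_card_roots
  have h3 : δ ^ (Multiset.card g.roots) ≤ ‖(g.roots.map ((t : ℂ) - ·)).prod‖ := by
    refine prod_ge δ hδ _ _ ?_
    intro ρ hρ
    refine (hcon ρ hρ).trans ?_
    have h4 := Complex.abs_re_le_norm ((t : ℂ) - ρ)
    simpa using h4
  have h4 : g.natDegree = f.natDegree := by
    rw [hg]
    exact Polynomial.natDegree_map _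
  have h5 : ‖g.leadingCoeff‖ = |f.leadingCoeff| := by
    rw [hg, Polynomial.leadingCoeff_map]
    simp
  have h6 : ‖g.eval (t : ℂ)‖ = |f.eval t| := by
    rw [hg]
    have h7 : Polynomial.eval (t : ℂ) (f.map (algebraMap ℝ ℂ)) = ((f.eval t : ℝ) : ℂ) := by
      have h8 := Polynomial.eval_map_algebraMap (R := ℝ) (B := ℂ) f (t : ℂ)
      rw [h8]
      have h9 := Polynomial.aeval_algebraMap_apply ℂ t f
      simpa using h9
    rw [h7]
    simp
  rw [← h6, h1, norm_mul, h5] at ht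
  rw [← h2, h4] at h3
  have h7 := mul_le_mul_of_nonneg_left h3 (abs_nonneg f.leadingCoeff)
  linarith

open Classical in
/-- one variable -/
theorem one (f : Polynomial ℝ) (δ η : ℝ) (hδ : 0 ≤ δ) (hη : η ≤ |f.leadingCoeff| * δ ^ f.natDegree)
    (H : ℕ) (hH : 0 < H) :
    (((Icc (-(H : ℤ)) H).filter (fun t : ℤ => |f.eval ((t : ℝ) / H)| < η)).card : ℝ) ≤
      f.natDegree * (2 * (δ * H) + 1) := by
  have hH' : (0 : ℝ) < H := by exact_mod_cast hH
  obtain ⟨m, hm⟩ : ∃ m : Multiset ℂ, m = (f.map (algebraMap ℝ ℂ)).roots := ⟨_, rfl⟩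
  have h1 : (Icc (-(H : ℤ)) H).filter (fun t : ℤ => |f.eval ((t : ℝ) / H)| < η) ⊆
      m.toFinset.biUnion (fun ρ => (Icc (-(H : ℤ)) H).filter
        (fun t : ℤ => |(t : ℝ) - H * ρ.re| < δ * H)) := by
    intro t ht
    rw [mem_filter] at ht
    obtain ⟨ρ, hρ, hρ2⟩ := near f δ η hδ hη _ ht.2
    rw [mem_biUnion]
    refine ⟨ρ, ?_, ?_⟩
    · rw [Multiset.mem_toFinset, hm]
      exact hρ
    · rw [mem_filter]
      refine ⟨ht.1, ?_⟩
      have h2 : (t : ℝ) - H * ρ.re = ((t : ℝ) / H - ρ.re) * H := by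
        field_simp
      rw [h2, abs_mul, abs_of_pos hH']
      exact mul_lt_mul_of_pos_right hρ2 hH'
  have h2 := (card_le_card h1).trans card_biUnion_le
  have h3 : (((Icc (-(H : ℤ)) H).filter (fun t : ℤ => |f.eval ((t : ℝ) / H)| < η)).card : ℝ) ≤
      ∑ ρ ∈ m.toFinset, (((Icc (-(H : ℤ)) H).filter
        (fun t : ℤ => |(t : ℝ) - H * ρ.re| < δ * H)).card : ℝ) := by
    exact_mod_cast h2
  refine h3.trans ?_
  have h4 : ∀ ρ ∈ m.toFinset, (((Icc (-(H : ℤ)) H).filter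
        (fun t : ℤ => |(t : ℝ) - H * ρ.re| < δ * H)).card : ℝ) ≤ 2 * (δ * H) + 1 := by
    intro ρ _
    refine ivl _ (H * ρ.re) (δ * H) (by positivity) ?_
    intro t ht
    exact (mem_filter.1 ht).2
  refine (sum_le_sum h4).trans ?_
  rw [sum_const, nsmul_eq_mul]
  refine mul_le_mul_of_nonneg_right ?_ (by positivity)
  have h5 : m.toFinset.card ≤ f.natDegree := by
    refine (Multiset.toFinset_card_le m).trans ?_
    rw [hm]
    refine (Polynomial.card_roots' _).trans ?_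
    exact Polynomial.natDegree_map_le
  exact_mod_cast h5

open Classical in
/-- the small points -/
noncomputable def bad (N : ℕ) (Q : MvPolynomial (Fin N) ℝ) (H : ℕ) (η : ℝ) :
    Finset (Fin N → ℤ) :=
  (Fintype.piFinset (fun _ : Fin N => Icc (-(H : ℤ)) H)).filter
      (fun c => |MvPolynomial.eval (fun i => (c i : ℝ) / H) Q| < η)

theorem card_box (N H : ℕ) :
    (Fintype.piFinset (fun _ : Fin N => Icc (-(H : ℤ)) H)).card = (2 * H + 1) ^ N := by
  rw [Fintype.card_piFinset, prod_const, card_univ, Fintype.card_fin, Int.card_Icc]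
  congr 1
  omega

theorem card_ivl (H : ℕ) : (Icc (-(H : ℤ)) H).card = 2 * H + 1 := by
  rw [Int.card_Icc]
  omega

open Classical in
theorem step (N : ℕ) (Q : MvPolynomial (Fin (N + 1)) ℝ) (H : ℕ) (hH : 0 < H) (δ η₁ : ℝ)
    (hδ : 0 ≤ δ) (hη₁ : 0 < η₁) :
    ((bad (N + 1) Q H (η₁ * δ ^ (MvPolynomial.finSuccEquiv ℝ N Q).natDegree)).card : ℝ) ≤
      (bad N (MvPolynomial.finSuccEquiv ℝ N Q).leadingCoeff H η₁).card * (2 * H + 1 : ℕ) +
      ((2 * H + 1) ^ N : ℕ) *
        ((MvPolynomial.finSuccEquiv ℝ N Q).natDegree * (2 * (δ * H) + 1)) := by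
  obtain ⟨P, hP⟩ : ∃ P, P = MvPolynomial.finSuccEquiv ℝ N Q := ⟨_, rfl⟩
  rw [← hP]
  obtain ⟨S, hS⟩ : ∃ S, S = bad (N + 1) Q H (η₁ * δ ^ P.natDegree) := ⟨_, rfl⟩
  rw [← hS]
  obtain ⟨T, hT⟩ : ∃ T, T = Fintype.piFinset (fun _ : Fin N => Icc (-(H : ℤ)) H) := ⟨_, rfl⟩
  have hmap : ∀ c ∈ S, Fin.tail c ∈ T := by
    intro c hc
    rw [hS, bad, mem_filter, Fintype.mem_piFinset] at hc
    rw [hT, Fintype.mem_piFinset]
    intro i
    exact hc.1 i.succ
  have h1 := card_eq_sum_card_fiberwise hmap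
  have h2 : (S.card : ℝ) = ∑ b ∈ T, ((S.filter (fun a => Fin.tail a = b)).card : ℝ) := by
    exact_mod_cast h1
  obtain ⟨D, hD⟩ : ∃ D : ℝ, D = P.natDegree * (2 * (δ * H) + 1) := ⟨_, rfl⟩
  have hD0 : 0 ≤ D := by
    rw [hD]
    positivity
  rw [← hD]
  have hfib : ∀ b ∈ T, ((S.filter (fun a => Fin.tail a = b)).card : ℝ) ≤
      (if b ∈ bad N P.leadingCoeff H η₁ then ((2 * H + 1 : ℕ) : ℝ) else 0) + D := by
    intro b hb
    obtain ⟨f, hf⟩ : ∃ f : Polynomial ℝ,
      f = P.map (MvPolynomial.eval (fun i => (b i : ℝ) / H)) := ⟨_, rfl⟩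
    have h3 : (S.filter (fun a => Fin.tail a = b)).card ≤
        ((Icc (-(H : ℤ)) H).filter
          (fun t : ℤ => |f.eval ((t : ℝ) / H)| < η₁ * δ ^ P.natDegree)).card := by
      refine card_le_card_of_injOn (fun c => c 0) ?_ ?_
      · intro c hc
        rw [mem_coe, mem_filter, hS, bad, mem_filter, Fintype.mem_piFinset] at hc
        rw [mem_coe, mem_filter]
        refine ⟨hc.1.1 0, ?_⟩
        have h4 : (fun i => (c i : ℝ) / H) =
            (Fin.cons ((c 0 : ℝ) / H) (fun i => (b i : ℝ) / H) : Fin (N + 1) → ℝ) := by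
          funext i
          refine Fin.cases ?_ (fun j => ?_) i
          · rw [Fin.cons_zero]
          · rw [Fin.cons_succ, ← hc.2]
            rfl
        have h5 := hc.1.2
        rw [h4, MvPolynomial.eval_eq_eval_mv_eval', ← hP, ← hf] at h5
        exact h5
      · intro c hc c' hc' h0
        rw [mem_coe, mem_filter] at hc hc'
        have h0' : c 0 = c' 0 := h0
        rw [← Fin.cons_self_tail c, ← Fin.cons_self_tail c', hc.2, hc'.2, h0']
    have h3' : ((S.filter (fun a => Fin.tail a = b)).card : ℝ) ≤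
        (((Icc (-(H : ℤ)) H).filter
          (fun t : ℤ => |f.eval ((t : ℝ) / H)| < η₁ * δ ^ P.natDegree)).card : ℝ) := by
      exact_mod_cast h3
    refine h3'.trans ?_
    by_cases hbad : b ∈ bad N P.leadingCoeff H η₁
    · rw [if_pos hbad]
      have h4 : ((Icc (-(H : ℤ)) H).filter
          (fun t : ℤ => |f.eval ((t : ℝ) / H)| < η₁ * δ ^ P.natDegree)).card ≤ 2 * H + 1 := by
        rw [← card_ivl]
        exact card_filter_le _ _
      have h5 : (((Icc (-(H : ℤ)) H).filter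
          (fun t : ℤ => |f.eval ((t : ℝ) / H)| < η₁ * δ ^ P.natDegree)).card : ℝ) ≤
          ((2 * H + 1 : ℕ) : ℝ) := by
        exact_mod_cast h4
      linarith
    · rw [if_neg hbad, zero_add]
      have h4 : η₁ ≤ |MvPolynomial.eval (fun i => (b i : ℝ) / H) P.leadingCoeff| := by
        by_contra hcon
        push Not at hcon
        apply hbad
        rw [bad, mem_filter, ← hT]
        exact ⟨hb, hcon⟩
      have h5 : MvPolynomial.eval (fun i => (b i : ℝ) / H) P.leadingCoeff ≠ 0 := by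
        intro h6
        rw [h6, abs_zero] at h4
        linarith
      have h6 : f.natDegree = P.natDegree := by
        rw [hf]
        exact Polynomial.natDegree_map_of_leadingCoeff_ne_zero _ h5
      have h7 : f.leadingCoeff = MvPolynomial.eval (fun i => (b i : ℝ) / H) P.leadingCoeff := by
        rw [hf]
        exact Polynomial.leadingCoeff_map_of_leadingCoeff_ne_zero _ h5
      have h8 := one f δ (η₁ * δ ^ P.natDegree) hδ (by
        rw [h6, h7]
        exact mul_le_mul_of_nonneg_right h4 (pow_nonneg hδ _)) H hH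
      rw [h6, ← hD] at h8
      exact h8
  rw [h2]
  refine (sum_le_sum hfib).trans ?_
  rw [sum_add_distrib, sum_const, nsmul_eq_mul, ← sum_filter, sum_const, nsmul_eq_mul]
  refine add_le_add ?_ ?_
  · refine mul_le_mul_of_nonneg_right ?_ (by positivity)
    have h4 : (T.filter (fun b => b ∈ bad N P.leadingCoeff H η₁)).card ≤
        (bad N P.leadingCoeff H η₁).card := by
      refine card_le_card ?_
      intro b hb
      exact (mem_filter.1 hb).2
    exact_mod_cast h4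
  · rw [hT, card_box]

theorem main (N : ℕ) : ∀ Q : MvPolynomial (Fin N) ℝ, Q ≠ 0 → ∀ ε : ℝ, 0 < ε →
    ∃ η : ℝ, 0 < η ∧ ∃ H₀ : ℕ, ∀ H : ℕ, H₀ ≤ H →
      ((bad N Q H η).card : ℝ) ≤ ε * ((2 * H + 1 : ℕ) : ℝ) ^ N := by
  induction N with
  | zero =>
    intro Q hQ ε hε
    obtain ⟨r, hr⟩ := MvPolynomial.C_surjective (Fin 0) Q
    have hr0 : r ≠ 0 := by
      rintro rfl
      rw [map_zero] at hr
      exact hQ hr.symm
    refine ⟨|r|, abs_pos.2 hr0, 0, fun H _ => ?_⟩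
    have h1 : bad 0 Q H |r| = ∅ := by
      rw [bad, filter_eq_empty_iff]
      intro c _
      rw [← hr, MvPolynomial.eval_C]
      exact lt_irrefl _
    rw [h1, card_empty]
    push_cast
    positivity
  | succ N ih =>
    intro Q hQ ε hε
    obtain ⟨P, hP⟩ : ∃ P, P = MvPolynomial.finSuccEquiv ℝ N Q := ⟨_, rfl⟩
    have hP0 : P ≠ 0 := by
      rw [hP]
      intro h
      apply hQ
      exact (map_eq_zero_iff _ (MvPolynomial.finSuccEquiv ℝ N).injective).1 h
    obtain ⟨η₁, hη₁, H₁, hH₁⟩ := ih P.leadingCoeff (Polynomial.leadingCoeff_ne_zero.2 hP0)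
      (ε / 2) (by positivity)
    obtain ⟨d, hd⟩ : ∃ d, d = P.natDegree := ⟨_, rfl⟩
    obtain ⟨δ, hδ⟩ : ∃ δ : ℝ, δ = ε / (4 * (d + 1)) := ⟨_, rfl⟩
    have hδ0 : 0 < δ := by
      rw [hδ]
      positivity
    obtain ⟨H₂, hH₂⟩ := exists_nat_ge (2 * (d : ℝ) / ε)
    refine ⟨η₁ * δ ^ d, by positivity, max 1 (max H₁ H₂), fun H hH => ?_⟩
    have hHa : 0 < H := lt_of_lt_of_le one_pos ((le_max_left _ _).trans hH)
    have hHb : H₁ ≤ H := ((le_max_left _ _).trans (le_max_right _ _)).trans hH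
    have hHc : H₂ ≤ H := ((le_max_right _ _).trans (le_max_right _ _)).trans hH
    have h1 := step N Q H hHa δ η₁ hδ0.le hη₁
    rw [← hP, ← hd] at h1
    refine h1.trans ?_
    have h2 := hH₁ H hHb
    have h3 : (d : ℝ) * (2 * (δ * H) + 1) ≤ ε / 2 * ((2 * H + 1 : ℕ) : ℝ) := by
      have h4 : (d : ℝ) * δ ≤ ε / 4 := by
        rw [hδ]
        have h5 : (d : ℝ) * (ε / (4 * (d + 1))) = ε / 4 * (d / (d + 1)) := by
          field_simp
        rw [h5]
        have h6 : (d : ℝ) / (d + 1) ≤ 1 := by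
          rw [div_le_one (by positivity)]
          linarith
        have h7 := mul_le_mul_of_nonneg_left h6 (show (0 : ℝ) ≤ ε / 4 by positivity)
        linarith
      have h5 : (d : ℝ) ≤ ε / 2 * H := by
        have h6 : 2 * (d : ℝ) / ε ≤ H := hH₂.trans (by exact_mod_cast hHc)
        rw [div_le_iff₀ hε] at h6
        linarith
      have h6 : (d : ℝ) * (2 * (δ * H) + 1) = (d * δ) * (2 * H) + d := by ring
      rw [h6]
      have h7 := mul_le_mul_of_nonneg_right h4 (show (0 : ℝ) ≤ 2 * H by positivity)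
      push_cast
      nlinarith
    have h4 : (0 : ℝ) ≤ ((2 * H + 1 : ℕ) : ℝ) := by positivity
    have h5 := mul_le_mul_of_nonneg_right h2 h4
    have h6 : (0 : ℝ) ≤ (((2 * H + 1) ^ N : ℕ) : ℝ) := by positivity
    have h7 := mul_le_mul_of_nonneg_left h3 h6
    have h8 : (((2 * H + 1) ^ N : ℕ) : ℝ) = ((2 * H + 1 : ℕ) : ℝ) ^ N := by push_cast; ring
    rw [h8] at h7 ⊢
    calc _ ≤ ε / 2 * ((2 * H + 1 : ℕ) : ℝ) ^ N * ((2 * H + 1 : ℕ) : ℝ) +
          ((2 * H + 1 : ℕ) : ℝ) ^ N * (ε / 2 * ((2 * H + 1 : ℕ) : ℝ)) := add_le_add h5 h7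
      _ = ε * ((2 * H + 1 : ℕ) : ℝ) ^ (N + 1) := by
        rw [pow_succ]
        ring

/-- SMR -/
theorem smr_ : S_SMR := by
  intro σ _ _ Q hQ ε hε
  classical
  obtain ⟨N, hN⟩ : ∃ N, N = Fintype.card σ := ⟨_, rfl⟩
  obtain ⟨E⟩ : Nonempty (σ ≃ Fin N) := ⟨by rw [hN]; exact Fintype.equivFin σ⟩
  obtain ⟨Q', hQ'⟩ : ∃ Q' : MvPolynomial (Fin N) ℝ,
    Q' = MvPolynomial.rename E (MvPolynomial.map (Int.castRingHom ℝ) Q) := ⟨_, rfl⟩
  have hQ0 : Q' ≠ 0 := by
    rw [hQ']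
    intro h
    apply hQ
    have h1 : MvPolynomial.map (Int.castRingHom ℝ) Q = 0 :=
      (map_eq_zero_iff _ (MvPolynomial.rename_injective E E.injective)).1 h
    exact (map_eq_zero_iff _ (MvPolynomial.map_injective _ (RingHom.injective_int _))).1 h1
  obtain ⟨η, hη, H₀, hH⟩ := main N Q' hQ0 ε hε
  refine ⟨η, hη, H₀, fun H hHH => ?_⟩
  rw [← hN]
  refine le_trans ?_ (hH H hHH)
  have h1 : ((Fintype.piFinset (fun _ : σ => Icc (-(H : ℤ)) H)).filter
      (fun c => |MvPolynomial.aeval (fun i => (c i : ℝ) / H) Q| < η)).card ≤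
      (bad N Q' H η).card := by
    refine card_le_card_of_injOn (fun c => c ∘ E.symm) ?_ ?_
    · intro c hc
      rw [mem_coe, mem_filter, Fintype.mem_piFinset] at hc
      rw [mem_coe, bad, mem_filter, Fintype.mem_piFinset]
      refine ⟨fun i => hc.1 _, ?_⟩
      have h2 : MvPolynomial.eval (fun i => (((c ∘ E.symm) i : ℤ) : ℝ) / H) Q' =
          MvPolynomial.aeval (fun i => (c i : ℝ) / H) Q := by
        rw [hQ', MvPolynomial.eval_rename, MvPolynomial.eval_map, MvPolynomial.aeval_def]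
        have h3 : ((fun i => (((c ∘ E.symm) i : ℤ) : ℝ) / H) ∘ E) = fun i => (c i : ℝ) / H := by
          funext i
          simp
        rw [h3]
        rfl
      rw [h2]
      exact hc.2
    · intro c _ c' _ h0
      funext i
      have h2 := congrFun h0 (E i)
      simpa using h2
  exact_mod_cast h1

end Pool.Agent.N546.PN.Smr
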