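import Mathlib
import Pool.Agent.N546.PN.Stm
import Pool.Agent.N546.PN.Stm2
import Pool.Agent.N546.PN.Main
import Pool.Agent.N999.PN.LIN
import Pool.Agent.N38.PN.Push
import Pool.Agent.N301.PN.Tail
import Pool.Agent.N531.PN546.LSOL
import Pool.Agent.N61.PN.Cho
import Pool.Agent.N478.PN.DEL
import Pool.Agent.N546.PN.Smr
import Pool.Agent.N434.PN.Smp
import Pool.Agent.N195.PN.Smo
import Pool.Agent.N749.PN.Sqo
import Pool.Agent.N327.PN.Opn
import Pool.Agent.N427.PN.Ope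
import Pool.Agent.N514.PN.Clo
import Pool.Agent.N482.PN.Realn
import Pool.Agent.N712.PN.Padn
import Pool.Agent.N123.PN.Pos
import Pool.Agent.N353.PN.UN3
import Pool.Agent.N665.PN.Conv

/-!
# Assembly of project PN (helper546)
-/

set_option autoImplicit false

namespace Pool.Agent.N546.PN

theorem lin : S_LIN := Pool.Agent.N999.PN.lin_
theorem push : S_PUSH := Pool.Agent.N38.PN.push_
theorem tail : S_TAIL := Pool.Agent.N301.PN.tail_
theorem lsol : S_LSOL := Pool.Agent.N531.PN546.lsol_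
theorem cho : S_CHO := Pool.Agent.N61.PN.cho_
theorem del : S_DEL := Pool.Agent.N478.PN.del_
theorem smp : S_SMP := Pool.Agent.N434.PNS.smp_
theorem smr : S_SMR := Pool.Agent.N546.PN.Smr.smr_
theorem smo : S_SMO := Pool.Agent.N195.PN.smo_ del smp
theorem opn_real : S_OPN ℝ := Pool.Agent.N327.PN.opn_ ℝ
theorem opn_padic (p : ℕ) [Fact p.Prime] : S_OPN ℚ_[p] := Pool.Agent.N327.PN.opn_ ℚ_[p]
theorem sqo_real : S_SQO ℝ := Pool.Agent.N749.PN.Sqo.sqo_real
theorem sqo_padic (p : ℕ) [Fact p.Prime] : S_SQO ℚ_[p] := Pool.Agent.N749.PN.Sqo.sqo_padic p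
theorem clo_real : S_CLO ℝ := Pool.Agent.N514.PN.clo_ ℝ sqo_real opn_real
theorem clo_padic (p : ℕ) [Fact p.Prime] : S_CLO ℚ_[p] :=
  Pool.Agent.N514.PN.clo_ ℚ_[p] (sqo_padic p) (opn_padic p)
theorem ope_real : S_OPE ℝ := Pool.Agent.N427.PN.ope_ ℝ sqo_real
theorem ope_padic (p : ℕ) [Fact p.Prime] : S_OPE ℚ_[p] :=
  Pool.Agent.N427.PN.ope_ ℚ_[p] (sqo_padic p)
theorem realn : S_REALN := Pool.Agent.N482.PN.realn_ del smr clo_real ope_real
theorem padn : S_PADN := Pool.Agent.N712.PN.padn_ del smp clo_padic ope_padic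
theorem pos' : S_POS := Pool.Agent.N123.PN.pos_ lin
theorem un3 : S_UN3 := Pool.Agent.N353.PN.un3_
theorem main : S_MAIN := main_ lin push tail lsol cho realn padn

end Pool.Agent.N546.PN
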