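import Mathlib
import Pool.Agent.N718.DC.All
import Pool.Agent.N546.PN.All
import Pool.Agent.N380.PN.Den
import Pool.Agent.N82.PN.Fill

/-!
# Diagonal conic bundles over projective spaces: end of project PN (helper546)
-/

set_option autoImplicit false
set_option linter.all false

namespace Pool.Agent.N546.PN

open Finset Filter Topology

theorem card_bx {ι : Type} [Fintype ι] [DecidableEq ι] (n : ℕ) (e : ι → ℕ) (H : ℕ) :
    ((bx n e H).card : ℝ) = ((2 * H + 1 : ℕ) : ℝ) ^ sz n e := by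
  have h1 : ((Icc (-(H : ℤ)) H).card) = 2 * H + 1 := by
    rw [Int.card_Icc]
    omega
  unfold bx sz
  rw [Fintype.card_piFinset]
  simp only [Fintype.card_piFinset, h1, Finset.prod_const, Finset.card_univ]
  rw [← Finset.prod_pow_eq_pow_sum]
  push_cast
  rfl

section conic

variable {n r : ℕ} {e : Fin r × Fin 3 → ℕ}

/-- a point of the fibre product -/
def IsP {K : Type} [Field K] (c : (k : Fin r × Fin 3) → Mon n (e k + 1) → K) (x : Fin (n + 1) → K)
    (z : Fin r → Fin 3 → K) : Prop :=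
  x ≠ 0 ∧ ∀ i, z i ≠ 0 ∧
    val (c (i, 0)) x * z i 0 ^ 2 + val (c (i, 1)) x * z i 1 ^ 2 = val (c (i, 2)) x * z i 2 ^ 2

/-- the differentials are independent -/
def SmK {K : Type} [Field K] (c : (k : Fin r × Fin 3) → Mon n (e k + 1) → K) : Prop :=
  ∀ (x : Fin (n + 1) → K) (z : Fin r → Fin 3 → K), IsP c x z → ∀ t : Fin r → K, t ≠ 0 →
      (∃ a, ∑ i, t i * (dval (c (i, 0)) a x * z i 0 ^ 2 +
        dval (c (i, 1)) a x * z i 1 ^ 2 - dval (c (i, 2)) a x * z i 2 ^ 2) ≠ 0) ∨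
      ∃ i l, t i * (val (c (i, l)) x * z i l) ≠ 0

lemma smK_of_smo {K : Type} [Field K] (c : (k : Fin r × Fin 3) → Mon n (e k + 1) → K)
    (h : Smo c) : SmK c := by
  intro x z hp t ht
  by_contra hcon
  rw [not_or, not_exists, not_exists] at hcon
  obtain ⟨h1, h2⟩ := hcon
  have h2' : ∀ i l, t i * (val (c (i, l)) x * z i l) = 0 := by
    intro i l
    by_contra h3
    exact h2 i ⟨l, h3⟩
  have h1' : ∀ a, ∑ i, t i * (dval (c (i, 0)) a x * z i 0 ^ 2 +
        dval (c (i, 1)) a x * z i 1 ^ 2 - dval (c (i, 2)) a x * z i 2 ^ 2) = 0 := by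
    intro a
    by_contra h3
    exact h1 a h3
  set s : Fin 3 → K := ![1, 1, -1] with hs
  obtain ⟨i0, hi0⟩ : ∃ i, t i ≠ 0 := by
    by_contra h3
    push Not at h3
    exact ht (funext h3)
  obtain ⟨l0, hl0⟩ : ∃ l, z i0 l ≠ 0 := by
    by_contra h3
    push Not at h3
    exact (hp.2 i0).1 (funext h3)
  have hs0 : ∀ l, s l ≠ 0 := by
    intro l
    fin_cases l <;> simp [hs]
  have hl : (fun k : Fin r × Fin 3 => t k.1 * (s k.2 * z k.1 k.2 ^ 2)) ≠ 0 := by
    intro h3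
    have h4 := congrFun h3 (i0, l0)
    exact (mul_ne_zero hi0 (mul_ne_zero (hs0 l0) (pow_ne_zero 2 hl0))) h4
  obtain ⟨a, ha⟩ := h x _ hp.1 hl (by
    rintro ⟨i, l⟩ hk
    have h3 := h2' i l
    have h4 : t i ≠ 0 := fun h5 => hk (by simp [h5])
    have h5 : z i l ≠ 0 := fun h6 => hk (by simp [h6])
    rcases mul_eq_zero.1 h3 with h6 | h6
    · exact absurd h6 h4
    · rcases mul_eq_zero.1 h6 with h7 | h7
      · exact h7
      · exact absurd h7 h5)
  apply ha
  rw [← h1' a, Fintype.sum_prod_type]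
  refine Finset.sum_congr rfl fun i _ => ?_
  rw [Fin.sum_univ_three]
  simp only [hs, Matrix.cons_val_zero, Matrix.cons_val_one, Matrix.cons_val]
  ring

variable (he : ∀ i l l', e (i, l) % 2 = e (i, l') % 2)

lemma isP_of_pt {K : Type} [Field K] [NeZero (1 : K)]
    (c : (k : Fin r × Fin 3) → Mon n (e k + 1) → K)
    (h : ∃ x, Pt (typ3 e he un3) c x) : ∃ x z, IsP c x z := by
  obtain ⟨x, hx1, hx2⟩ := h
  have hx2' : C3 (fun k => val (c k) x) := hx2
  by_cases h0 : x = 0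
  · by_cases hr : r = 0
    · subst hr
      refine ⟨fun _ => 1, fun i => i.elim0, ?_, fun i => i.elim0⟩
      intro h3
      have := congrFun h3 0
      exact one_ne_zero this
    · exfalso
      have h3 := hx1 (⟨0, Nat.pos_of_ne_zero hr⟩, 0)
      apply h3
      subst h0
      unfold val
      refine Finset.sum_eq_zero fun m _ => ?_
      have h4 : ∑ i, m.1 i = e (⟨0, Nat.pos_of_ne_zero hr⟩, 0) + 1 := (Finset.mem_piAntidiag.1 m.2).1
      obtain ⟨i, _, hi⟩ : ∃ i ∈ (Finset.univ : Finset (Fin (n + 1))), m.1 i ≠ 0 := by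
        by_contra h5
        push Not at h5
        rw [Finset.sum_eq_zero h5] at h4
        omega
      rw [Finset.prod_eq_zero (Finset.mem_univ i), mul_zero]
      simp [hi]
  · choose u v w h1 h2 using hx2'
    refine ⟨x, fun i => ![u i, v i, w i], h0, fun i => ⟨?_, ?_⟩⟩
    · intro h3
      rcases h1 i with h4 | h4 | h4
      · exact h4 (congrFun h3 0)
      · exact h4 (congrFun h3 1)
      · exact h4 (congrFun h3 2)
    · exact h2 i

lemma pt_of_isP {K : Type} [NontriviallyNormedField K] (h1 : S_SQO K) (h2 : S_OPN K)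
    (c : (k : Fin r × Fin 3) → Mon n (e k + 1) → K) (hs : Smo c)
    (h : ∃ x z, IsP c x z) : ∃ x, Pt (typ3 e he un3) c x := by
  obtain ⟨x, z, hx, hz⟩ := h
  refine Pool.Agent.N380.PN.den_ K h1 h2 n (Fin r × Fin 3) e (typ3 e he un3) c x hx hs ?_
  intro δ hδ
  have h3 : C3 (fun k => val (c k) x) := by
    intro i
    refine ⟨z i 0, z i 1, z i 2, ?_, (hz i).2⟩
    by_contra h4
    rw [not_or, not_or] at h4
    obtain ⟨g0, g1, g2⟩ := h4
    apply (hz i).1
    funext l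
    fin_cases l
    · exact not_not.1 g0
    · exact not_not.1 g1
    · exact not_not.1 g2
  exact Pool.Agent.N82.PN.fill_ K r _ h3 δ hδ

theorem bval_eq {e : ℕ} (c : Fin (e + 2) → ℤ) {K : Type} [Field K] (x y : K) :
    Pool.Agent.N718.DC.fmv c x y = bval c x y := by
  unfold Pool.Agent.N718.DC.fmv Pool.Agent.N718.DC.fm bval
  rfl

theorem pt1_ps (c : (k : Fin r × Fin 3) → Fin (e k + 2) → ℤ) {K : Type} [Field K] (x y : K) :
    Pt1 (typ3 e he un3) c x y ↔ Pool.Agent.N718.DC.PS c x y := by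
  unfold Pt1 Pool.Agent.N718.DC.PS
  simp only [bval_eq]
  exact Iff.rfl

theorem loc_of_loc1 (c : (k : Fin r × Fin 3) → Fin (e k + 2) → ℤ) (h : Loc1 (typ3 e he un3) c) :
    Pool.Agent.N718.DC.Loc Set.univ c := by
  obtain ⟨⟨y, hz⟩, hp⟩ := h
  refine ⟨⟨y, Set.mem_univ _, (pt1_ps he c _ _).1 hz⟩, fun p => ?_⟩
  haveI : Fact (p : ℕ).Prime := ⟨p.2⟩
  obtain ⟨x, y, hxy⟩ := hp p
  exact ⟨x, y, (pt1_ps he c _ _).1 hxy⟩

theorem loc1_of_loc (c : (k : Fin r × Fin 3) → Fin (e k + 2) → ℤ)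
    (h : Pool.Agent.N718.DC.Loc Set.univ c) : Loc1 (typ3 e he un3) c := by
  obtain ⟨⟨y, _, hz⟩, hp⟩ := h
  refine ⟨⟨y, (pt1_ps he c _ _).2 hz⟩, fun p hp' => ?_⟩
  obtain ⟨x, y, hxy⟩ := hp ⟨p, hp'.out⟩
  exact ⟨x, y, (pt1_ps he c _ _).2 hxy⟩

theorem glob_of_appr (c : (k : Fin r × Fin 3) → Fin (e k + 2) → ℤ)
    (h : Pool.Agent.N718.DC.Appr Set.univ ∅ 0 c) : Glob1 (typ3 e he un3) c := by
  obtain ⟨x, y, _, _, h1, _⟩ := h (fun _ => 0) (fun _ => 0)
    (fun p hp => absurd hp (Finset.notMem_empty p))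
  exact ⟨(x : ℚ), (y : ℚ), (pt1_ps he c _ _).2 h1⟩

theorem hp1_3 : HP1 (typ3 e he un3) := by
  classical
  intro η hη
  obtain ⟨H₀, h⟩ := Pool.Agent.N718.DC.maina r e he Set.univ isOpen_univ ∅ 0 η hη
  refine ⟨H₀, fun H hH => ?_⟩
  have h1 : sz1 e = Pool.Agent.N718.DC.ncI e := rfl
  rw [h1]
  refine le_trans ?_ (h H hH)
  rw [Nat.cast_le]
  refine Finset.card_le_card ?_
  intro c hc
  rw [Finset.mem_filter] at hc ⊢
  refine ⟨hc.1, loc_of_loc1 he c hc.2.1, fun hA => hc.2.2 (glob_of_appr he c hA)⟩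

theorem pp1_3 : PP1 (typ3 e he un3) := by
  classical
  obtain ⟨c₀, hc₀, H₀, h⟩ := Pool.Agent.N718.DC.mainb r e Set.univ isOpen_univ ⟨0, Set.mem_univ _⟩
  refine ⟨c₀, hc₀, H₀, fun H hH => ?_⟩
  have h1 : sz1 e = Pool.Agent.N718.DC.ncI e := rfl
  rw [h1]
  refine le_trans (h H hH) ?_
  rw [Nat.cast_le]
  refine Finset.card_le_card ?_
  intro c hc
  rw [Finset.mem_filter] at hc ⊢
  exact ⟨hc.1, loc1_of_loc he c hc.2⟩

open Classical in
/-- The count for coefficient families. -/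
theorem fin_count (he : ∀ i l l', e (i, l) % 2 = e (i, l') % 2) (hn : 2 ≤ n) :
    (∃ c₀ : ℝ, 0 < c₀ ∧ ∀ᶠ H : ℕ in atTop, c₀ * ((bx n e H).card : ℝ) ≤
      (((bx n e H).filter (fun c => (∀ (K : Type) [Field K] [CharZero K], SmK (ic c K)) ∧
        ((∃ x z, IsP (ic c ℝ) x z) ∧ ∀ (p : ℕ) [Fact p.Prime], ∃ x z, IsP (ic c ℚ_[p]) x z))).card : ℝ)) ∧
    Tendsto (fun H : ℕ =>
      (((bx n e H).filter (fun c => (∀ (K : Type) [Field K] [CharZero K], SmK (ic c K)) ∧
        (∃ x z, IsP (ic c ℚ) x z))).card : ℝ) /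
      (((bx n e H).filter (fun c => (∀ (K : Type) [Field K] [CharZero K], SmK (ic c K)) ∧
        ((∃ x z, IsP (ic c ℝ) x z) ∧ ∀ (p : ℕ) [Fact p.Prime], ∃ x z, IsP (ic c ℚ_[p]) x z))).card : ℝ))
      atTop (𝓝 1) := by
  set T := typ3 e he un3 with hT
  have hHPN : HPN T n := main n (Fin r × Fin 3) e T hn (hp1_3 he)
  obtain ⟨c₀, hc₀, H₀, hpos⟩ := pos' n (Fin r × Fin 3) e T (by omega) (pp1_3 he)
  set Sm : ((k : Fin r × Fin 3) → Mon n (e k + 1) → ℤ) → Prop :=
    fun c => ∀ (K : Type) [Field K] [CharZero K], SmK (ic c K) with hSm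
  set So : ((k : Fin r × Fin 3) → Mon n (e k + 1) → ℤ) → Prop :=
    fun c => ∀ (K : Type) [Field K] [CharZero K], Smo (ic c K) with hSo
  set LS : ((k : Fin r × Fin 3) → Mon n (e k + 1) → ℤ) → Prop :=
    fun c => (∃ x z, IsP (ic c ℝ) x z) ∧ ∀ (p : ℕ) [Fact p.Prime], ∃ x z, IsP (ic c ℚ_[p]) x z with hLS
  set RP : ((k : Fin r × Fin 3) → Mon n (e k + 1) → ℤ) → Prop :=
    fun c => ∃ x z, IsP (ic c ℚ) x z with hRP
  have a1 : ∀ c, So c → Sm c := fun c h K _ _ => smK_of_smo _ (h K)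
  have a2 : ∀ c, LocN T c → LS c := fun c h =>
    ⟨isP_of_pt he _ h.1, fun p hp => isP_of_pt he _ (h.2 p)⟩
  have a3 : ∀ c, So c → LS c → LocN T c := fun c h1 h2 =>
    ⟨pt_of_isP he sqo_real opn_real _ (h1 ℝ) h2.1, fun p hp =>
      pt_of_isP he (sqo_padic p) (opn_padic p) _ (h1 ℚ_[p]) (h2.2 p)⟩
  have a4 : ∀ c, GlobN T c → RP c := fun c h => isP_of_pt he _ h
  have a5 : ∀ c, RP c → LS c := by
    rintro c ⟨x, z, hx, hz⟩
    have key : ∀ (K : Type) [Field K] [CharZero K], ∃ x z, IsP (ic c K) x z := by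
      intro K _ _
      refine ⟨fun i => (x i : K), fun i l => (z i l : K), ?_, fun i => ⟨?_, ?_⟩⟩
      · intro h
        apply hx
        funext j
        have h3 := congrFun h j
        simpa using h3
      · intro h
        apply (hz i).1
        funext j
        have h3 := congrFun h j
        simpa using h3
      · have h4 := congrArg (fun q : ℚ => (q : K)) (hz i).2
        unfold val ic at h4 ⊢
        push_cast at h4
        exact h4
    exact ⟨key ℝ, fun p hp => key ℚ_[p]⟩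
  have hX : ∀ H : ℕ, (0 : ℝ) < ((bx n e H).card : ℝ) := fun H => by
    rw [card_bx]
    positivity
  have b1 : ∀ η : ℝ, 0 < η → ∀ᶠ H : ℕ in atTop,
      (((bx n e H).filter (fun c => ¬ So c)).card : ℝ) ≤ η * (bx n e H).card := by
    intro η hη
    obtain ⟨H₁, h1⟩ := smo n (Fin r × Fin 3) e η hη
    filter_upwards [eventually_ge_atTop H₁] with H hH
    rw [card_bx]
    convert h1 H hH
  have b2 : ∀ η : ℝ, 0 < η → ∀ᶠ H : ℕ in atTop,
      (((bx n e H).filter (fun c => LocN T c ∧ ¬ GlobN T c)).card : ℝ) ≤ η * (bx n e H).card := by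
    intro η hη
    obtain ⟨H₁, h1⟩ := hHPN η hη
    filter_upwards [eventually_ge_atTop H₁] with H hH
    rw [card_bx]
    convert h1 H hH
  have b3 : ∀ᶠ H : ℕ in atTop, c₀ / 2 * ((bx n e H).card : ℝ) ≤
      (((bx n e H).filter (fun c => Sm c ∧ LS c)).card : ℝ) := by
    filter_upwards [b1 (c₀ / 2) (by positivity), eventually_ge_atTop H₀] with H h1 hH
    have h2 := hpos H hH
    rw [← card_bx] at h2
    have h3 : ((bx n e H).filter (fun c => LocN T c)) ⊆
        ((bx n e H).filter (fun c => ¬ So c)) ∪ ((bx n e H).filter (fun c => Sm c ∧ LS c)) := by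
      intro c hc
      rw [Finset.mem_filter] at hc
      rw [Finset.mem_union, Finset.mem_filter, Finset.mem_filter]
      by_cases h : So c
      · exact Or.inr ⟨hc.1, a1 c h, a2 c hc.2⟩
      · exact Or.inl ⟨hc.1, h⟩
    have h4 := (Finset.card_le_card h3).trans (Finset.card_union_le _ _)
    have h5 : (((bx n e H).filter (fun c => LocN T c)).card : ℝ) ≤
        (((bx n e H).filter (fun c => ¬ So c)).card : ℝ) +
          (((bx n e H).filter (fun c => Sm c ∧ LS c)).card : ℝ) := by exact_mod_cast h4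
    linarith
  refine ⟨⟨c₀ / 2, by positivity, b3⟩, ?_⟩
  rw [Metric.tendsto_atTop']
  intro ε hε
  have b4 := (b3.and ((b1 (c₀ * ε / 8) (by positivity)).and (b2 (c₀ * ε / 8) (by positivity))))
  obtain ⟨H₁, hH₁⟩ := eventually_atTop.1 b4
  refine ⟨H₁, fun H hH => ?_⟩
  obtain ⟨h1, h2, h3⟩ := hH₁ H hH.le
  have hXH := hX H
  have hL : (0 : ℝ) < (((bx n e H).filter (fun c => Sm c ∧ LS c)).card : ℝ) :=
    lt_of_lt_of_le (by positivity) h1
  have hsub : ((bx n e H).filter (fun c => Sm c ∧ RP c)) ⊆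
      ((bx n e H).filter (fun c => Sm c ∧ LS c)) := by
    intro c hc
    rw [Finset.mem_filter] at hc ⊢
    exact ⟨hc.1, hc.2.1, a5 c hc.2.2⟩
  have hsub' : ((bx n e H).filter (fun c => Sm c ∧ LS c)) ⊆
      ((bx n e H).filter (fun c => Sm c ∧ RP c)) ∪ (((bx n e H).filter (fun c => ¬ So c)) ∪
        ((bx n e H).filter (fun c => LocN T c ∧ ¬ GlobN T c))) := by
    intro c hc
    rw [Finset.mem_filter] at hc
    rw [Finset.mem_union, Finset.mem_union, Finset.mem_filter, Finset.mem_filter, Finset.mem_filter]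
    by_cases g1 : RP c
    · exact Or.inl ⟨hc.1, hc.2.1, g1⟩
    · right
      by_cases g2 : So c
      · exact Or.inr ⟨hc.1, a3 c g2 hc.2.2, fun g3 => g1 (a4 c g3)⟩
      · exact Or.inl ⟨hc.1, g2⟩
  have h4 : ((((bx n e H).filter (fun c => Sm c ∧ RP c)).card : ℝ)) ≤
      (((bx n e H).filter (fun c => Sm c ∧ LS c)).card : ℝ) := by
    exact_mod_cast Finset.card_le_card hsub
  have h5 : (((bx n e H).filter (fun c => Sm c ∧ LS c)).card : ℝ) ≤
      (((bx n e H).filter (fun c => Sm c ∧ RP c)).card : ℝ) +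
        ((((bx n e H).filter (fun c => ¬ So c)).card : ℝ) +
        (((bx n e H).filter (fun c => LocN T c ∧ ¬ GlobN T c)).card : ℝ)) := by
    have h6 := (Finset.card_le_card hsub').trans ((Finset.card_union_le _ _).trans
      (Nat.add_le_add_left (Finset.card_union_le _ _) _))
    exact_mod_cast h6
  rw [Real.dist_eq, abs_sub_comm, abs_of_nonneg]
  · rw [sub_lt_comm, lt_div_iff₀ hL]
    have h7 : ε * (c₀ / 2 * ((bx n e H).card : ℝ)) ≤
        ε * (((bx n e H).filter (fun c => Sm c ∧ LS c)).card : ℝ) :=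
      mul_le_mul_of_nonneg_left h1 hε.le
    have h8 : 0 < c₀ * ε * ((bx n e H).card : ℝ) := by positivity
    nlinarith
  · rw [sub_nonneg, div_le_one hL]
    exact h4

end conic

end Pool.Agent.N546.PN
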